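import Pool.Agent.W97.TW.Defs

/-!
The quadratic character of conductor `7`.
-/

set_option autoImplicit false

namespace Pool.Agent.W97.TW

instance fact7 : Fact (Nat.Prime 7) := ⟨by norm_num⟩

/-- the quadratic character mod `7` -/
noncomputable def chi7 : DirichletCharacter ℂ 7 :=
  (quadraticChar (ZMod 7)).ringHomComp (Int.castRingHom ℂ)

lemma chi7_apply (a : ZMod 7) : chi7 a = ((quadraticChar (ZMod 7) a : ℤ) : ℂ) := rfl

lemma chi7_neg_one : chi7 (-1) = -1 := by
  rw [chi7_apply]
  have : quadraticChar (ZMod 7) (-1) = -1 := by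
    rw [quadraticChar_neg_one_iff_not_isSquare]
    decide
  rw [this]
  norm_num

lemma chi7_eleven : chi7 11 = 1 := by
  rw [chi7_apply]
  have : quadraticChar (ZMod 7) 11 = 1 := by
    rw [quadraticChar_one_iff_isSquare (by decide)]
    decide
  rw [this]
  norm_num

lemma chi7_ne_one : chi7 ≠ 1 := by
  intro h
  have h1 := chi7_neg_one
  rw [h, MulChar.one_apply (by exact isUnit_one.neg)] at h1
  norm_num at h1

lemma chi7_sq : chi7 ^ 2 = 1 := by
  exact ((quadraticChar_isQuadratic (ZMod 7)).comp (Int.castRingHom ℂ)).sq_eq_one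

lemma chi7_primitive : chi7.IsPrimitive := by
  have h1 := chi7.conductor_dvd_level
  rcases (Nat.dvd_prime (by norm_num : Nat.Prime 7)).1 h1 with h | h
  · exact absurd ((chi7.eq_one_iff_conductor_eq_one).2 h) chi7_ne_one
  · exact h

/-- the character attached to `ℚ(√-7)` -/
noncomputable def Q7 : QuadraticCharacter where
  modulus := 7
  modulus_pos := by norm_num
  χ := chi7
  primitive := chi7_primitive
  sq_eq_one := chi7_sq
  ne_one := chi7_ne_one

end Pool.Agent.W97.TW
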