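import Pool.Agent.W97.TW.DimOne

/-!
`η(z)² η(11z)²` is a newform.
-/

set_option autoImplicit false

open UpperHalfPlane MatrixGroups CongruenceSubgroup Filter Topology Asymptotics
open scoped ModularForm Pointwise

namespace Pool.Agent.W97.TW

/-- the Euler product -/
noncomputable def Q (q : ℂ) : ℂ := ∏' i : ℕ, (1 - q ^ (i + 1))

lemma Q_diff : DifferentiableOn ℂ Q (Metric.ball 0 1) := ModularForm.differentiableOn_tprod_one_sub_pow

lemma Q_zero : Q 0 = 1 := by
  unfold Q
  simp

lemma eta_eq (w : ℂ) : ModularForm.eta w = Function.Periodic.qParam 24 w * Q (Complex.exp (2 * Real.pi * Complex.I * w)) := by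
  unfold ModularForm.eta Q
  congr 1
  refine tprod_congr fun n => ?_
  rw [ModularForm.eta_q_eq_pow]

lemma e11_q (z : ℍ) : e11 z = Function.Periodic.qParam 1 (z : ℂ) *
    (Q (Function.Periodic.qParam 1 (z : ℂ)) ^ 2 * Q (Function.Periodic.qParam 1 (z : ℂ) ^ 11) ^ 2) := by
  unfold e11
  rw [eta_eq, eta_eq]
  have h1 : Complex.exp (2 * Real.pi * Complex.I * z) = Function.Periodic.qParam 1 (z : ℂ) := by
    unfold Function.Periodic.qParam
    congr 1
    push_cast
    ring
  have h2 : Complex.exp (2 * Real.pi * Complex.I * (11 * z)) = Function.Periodic.qParam 1 (z : ℂ) ^ 11 := by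
    rw [← h1, ← Complex.exp_nat_mul]
    congr 1
    push_cast
    ring
  have h3 : Function.Periodic.qParam 24 (z : ℂ) ^ 2 * Function.Periodic.qParam 24 (11 * (z : ℂ)) ^ 2 =
      Function.Periodic.qParam 1 (z : ℂ) := by
    unfold Function.Periodic.qParam
    rw [← Complex.exp_nat_mul, ← Complex.exp_nat_mul, ← Complex.exp_add]
    congr 1
    push_cast
    ring
  rw [h1, h2]
  linear_combination (Q (Function.Periodic.qParam 1 (z : ℂ)) ^ 2 *
    Q (Function.Periodic.qParam 1 (z : ℂ) ^ 11) ^ 2) * h3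

lemma e11_isZero : IsZeroAtImInfty e11 := by
  have := e11_zero 1
  rwa [SlashAction.slash_one] at this

lemma e11_cuspFunction : Set.EqOn (cuspFunction 1 e11)
    (fun q => q * (Q q ^ 2 * Q (q ^ 11) ^ 2)) (Metric.ball 0 1) := by
  intro q hq
  by_cases hq0 : q = 0
  · simpa [hq0] using! Function.Periodic.cuspFunction_zero_of_zero_at_inf one_pos
      e11_isZero.zero_at_infty_comp_ofComplex
  · have him := Function.Periodic.im_invQParam_pos_of_norm_lt_one one_pos
      (by simpa [dist_zero_right] using hq) hq0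
    simp only [cuspFunction, Function.Periodic.cuspFunction_eq_of_nonzero 1 _ hq0,
      Function.comp_apply, ofComplex_apply_of_im_pos him]
    rw [e11_q]
    have h1 : Function.Periodic.qParam 1 (Function.Periodic.invQParam 1 q) = q :=
      Function.Periodic.qParam_right_inv one_ne_zero hq0
    change Function.Periodic.qParam 1 (Function.Periodic.invQParam 1 q) *
      (Q (Function.Periodic.qParam 1 (Function.Periodic.invQParam 1 q)) ^ 2 *
        Q (Function.Periodic.qParam 1 (Function.Periodic.invQParam 1 q) ^ 11) ^ 2) = _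
    rw [h1]

lemma e11_coeff_one : (qExpansion 1 e11).coeff 1 = 1 := by
  have hmem : (0 : ℂ) ∈ Metric.ball (0 : ℂ) 1 := Metric.mem_ball_self one_pos
  have hd : DifferentiableWithinAt ℂ (fun q : ℂ => Q q ^ 2 * Q (q ^ 11) ^ 2) (Metric.ball 0 1) 0 := by
    have h1 := Q_diff 0 hmem
    have h2 : DifferentiableWithinAt ℂ (fun q : ℂ => Q (q ^ 11)) (Metric.ball 0 1) 0 := by
      refine DifferentiableWithinAt.comp (t := Metric.ball (0 : ℂ) 1) (0 : ℂ)
        (g := Q) (f := fun q : ℂ => q ^ 11) ?_ (by fun_prop) ?_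
      · simpa using h1
      · intro q hq
        rw [Metric.mem_ball, dist_zero_right] at hq ⊢
        rw [norm_pow]
        exact pow_lt_one₀ (norm_nonneg _) hq (by norm_num)
    exact (h1.pow 2).mul (h2.pow 2)
  calc (qExpansion 1 e11).coeff 1
      = derivWithin (cuspFunction 1 e11) (Metric.ball 0 1) 0 := by
        simp [qExpansion_coeff, ← derivWithin_of_isOpen Metric.isOpen_ball hmem]
    _ = derivWithin (fun q => q * (Q q ^ 2 * Q (q ^ 11) ^ 2)) (Metric.ball 0 1) 0 :=
        derivWithin_congr e11_cuspFunction (e11_cuspFunction hmem)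
    _ = 1 := by
        rw [derivWithin_fun_mul differentiableWithinAt_fun_id hd]
        simp [derivWithin_id' _ _ (Metric.isOpen_ball.uniqueDiffWithinAt hmem), Q_zero]

theorem f11_apply (z : ℍ) : f11 z = ModularForm.eta z ^ 2 * ModularForm.eta (11 * z) ^ 2 := rfl

theorem isNewform_f11 : IsNewform 11 2 f11 where
  coeff_one := e11_coeff_one
  hecke := by
    intro p
    obtain ⟨c, hc⟩ := dim_one (heckeForm f11 p.2)
    exact ⟨c, fun z => hc z⟩
  fricke := by
    refine ⟨-11, fun z => ?_⟩
    have him : 0 < ((11 : ℂ) * z).im := im_mul_nat z.im_pos (n := 11) (by norm_num)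
    have hz : (z : ℂ) ≠ 0 := z.ne_zero
    have hi2 : 0 < (-1 / ((11 : ℂ) * z)).im := by
      have := (im_moebius (a := 0) (b := -1) (c := 1) (d := 0) (by norm_num) him).1
      simpa using this
    have hi3 : 0 < (-1 / (((11 : ℕ) : ℂ) * z)).im := by
      push_cast; exact hi2
    change e11 (ofComplex (-1 / (((11 : ℕ) : ℂ) * z))) = _ * _ * e11 z
    rw [ofComplex_apply_of_im_pos hi3, e11_eq, e11_eq]
    have e1 : ((⟨-1 / (((11 : ℕ) : ℂ) * z), hi3⟩ : ℍ) : ℂ) = -1 / ((11 : ℂ) * z) := by
      change -1 / (((11 : ℕ) : ℂ) * z) = _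
      push_cast
      rfl
    rw [e1]
    have e2 : (11 : ℂ) * (-1 / ((11 : ℂ) * z)) = -1 / z := by field_simp
    rw [e2, G_S him, G_S z.im_pos]
    have hI : Complex.I ^ 2 = -1 := Complex.I_sq
    have h2 : (z : ℂ) ^ (2 : ℤ) = z ^ 2 := by norm_cast
    rw [h2]
    linear_combination (11 * (z : ℂ) ^ 2 * G z * G (11 * z)) * hI

end Pool.Agent.W97.TW
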