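import Pool.Agent.W97.TW.Defs

/-!
The Hecke operators preserve cusp forms on `Γ_0(N)`.
-/

set_option autoImplicit false

open UpperHalfPlane MatrixGroups CongruenceSubgroup Filter Topology
open scoped ModularForm Pointwise

namespace Pool.Agent.W97.TW

/-- integral matrices of positive determinant, as rational matrices -/
noncomputable def alQ (a b c d : ℤ) (h : 0 < a * d - b * c) : GL (Fin 2) ℚ :=
  Matrix.GeneralLinearGroup.mkOfDetNeZero !![(a : ℚ), (b : ℚ); (c : ℚ), (d : ℚ)] (by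
    rw [Matrix.det_fin_two_of]
    exact_mod_cast h.ne')

/-- integral matrices of positive determinant, as real matrices -/
noncomputable def al (a b c d : ℤ) (h : 0 < a * d - b * c) : GL (Fin 2) ℝ :=
  Matrix.GeneralLinearGroup.mkOfDetNeZero !![(a : ℝ), (b : ℝ); (c : ℝ), (d : ℝ)] (by
    rw [Matrix.det_fin_two_of]
    exact_mod_cast h.ne')

lemma al_eq (a b c d : ℤ) (h : 0 < a * d - b * c) : al a b c d h = (alQ a b c d h).map (Rat.castHom ℝ) := by
  ext i j
  fin_cases i <;> fin_cases j <;> simp [al, alQ, Matrix.GeneralLinearGroup.mkOfDetNeZero]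

lemma al_det (a b c d : ℤ) (h : 0 < a * d - b * c) :
    ((al a b c d h).det.val : ℝ) = ((a * d - b * c : ℤ) : ℝ) := by
  have : ((al a b c d h).det.val : ℝ) = Matrix.det !![(a : ℝ), (b : ℝ); (c : ℝ), (d : ℝ)] := rfl
  rw [this, Matrix.det_fin_two_of]
  push_cast
  ring

lemma slash_al (f : ℍ → ℂ) (k : ℤ) (a b c d : ℤ) (h : 0 < a * d - b * c) (z : ℍ) :
    (f ∣[k] al a b c d h) z = f (ofComplex ((a * (z : ℂ) + b) / (c * z + d))) *
      (((a * d - b * c : ℤ) : ℂ)) ^ (k - 1) * ((c : ℂ) * z + d) ^ (-k) := by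
  have hdet : 0 < (al a b c d h).det.val := by
    rw [al_det]; exact_mod_cast h
  have hdetR : (0 : ℝ) < ((a * d - b * c : ℤ) : ℝ) := by exact_mod_cast h
  rw [ModularForm.slash_def]
  simp only
  have h1 : σ (al a b c d h) = ContinuousAlgEquiv.refl ℝ ℂ := by
    unfold σ
    rw [if_pos hdet]
  have hnum : num (al a b c d h) z = a * (z : ℂ) + b := rfl
  have hden : denom (al a b c d h) z = c * (z : ℂ) + d := rfl
  have h2 : ((al a b c d h • z : ℍ) : ℂ) = (a * (z : ℂ) + b) / (c * z + d) := by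
    rw [coe_smul_of_det_pos hdet, hnum, hden]
  have h3 : ofComplex ((a * (z : ℂ) + b) / (c * z + d)) = al a b c d h • z := by
    rw [← h2]; exact ofComplex_apply _
  rw [h1, h3, hden, al_det, abs_of_pos hdetR]
  simp

variable {N : ℕ} {k : ℤ} (f : CuspForm (Gamma0 N : Subgroup (GL (Fin 2) ℝ)) k)

lemma isCusp_conj [NeZero N] (g : GL (Fin 2) ℚ) {c : OnePoint ℝ}
    (hc : IsCusp c (Gamma0 N : Subgroup (GL (Fin 2) ℝ))) :
    IsCusp c (ConjAct.toConjAct (g.map (Rat.castHom ℝ))⁻¹ • (Gamma0 N : Subgroup (GL (Fin 2) ℝ))) := by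
  have h1 : (ConjAct.toConjAct ((g⁻¹).map (Rat.castHom ℝ)) •
      (Gamma0 N : Subgroup (GL (Fin 2) ℝ))).IsArithmetic := Subgroup.IsArithmetic.conj _ _
  rw [map_inv] at h1
  rw [Subgroup.IsArithmetic.isCusp_iff_isCusp_SL2Z] at hc ⊢
  exact hc

lemma zero_slash' [NeZero N] (a b c d : ℤ) (h : 0 < a * d - b * c) {x : OnePoint ℝ}
    (hx : IsCusp x (Gamma0 N : Subgroup (GL (Fin 2) ℝ))) :
    OnePoint.IsZeroAt x ((f : ℍ → ℂ) ∣[k] al a b c d h) k := by
  have h1 := isCusp_conj (alQ a b c d h) hx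
  rw [← al_eq] at h1
  exact (CuspForm.translate f (al a b c d h)).zero_at_cusps' h1

lemma holo_slash (a b c d : ℤ) (h : 0 < a * d - b * c) :
    MDifferentiable (modelWithCornersSelf ℂ ℂ) (modelWithCornersSelf ℂ ℂ) ((f : ℍ → ℂ) ∣[k] al a b c d h) :=
  (CuspForm.translate f (al a b c d h)).holo'

/-- a matrix in `SL(2, ℤ)` -/
def mkSL (a b c d : ℤ) (h : a * d - b * c = 1) : SL(2, ℤ) :=
  ⟨!![a, b; c, d], by rw [Matrix.det_fin_two_of]; exact h⟩

lemma mkSL_coe (a b c d : ℤ) (h : a * d - b * c = 1) :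
    (mkSL a b c d h : Matrix (Fin 2) (Fin 2) ℤ) = !![a, b; c, d] := rfl

lemma mkSL_mem (a b c d : ℤ) (h : a * d - b * c = 1) (N : ℕ) :
    mkSL a b c d h ∈ Gamma0 N ↔ (N : ℤ) ∣ c := by
  rw [Gamma0_mem, ← ZMod.intCast_zmod_eq_zero_iff_dvd]
  rfl

lemma exists_mkSL (γ : SL(2, ℤ)) : ∃ (a b c d : ℤ) (h : a * d - b * c = 1), γ = mkSL a b c d h := by
  refine ⟨γ 0 0, γ 0 1, γ 1 0, γ 1 1, ?_, ?_⟩
  · have := γ.2
    rw [Matrix.det_fin_two] at this
    exact this
  · apply Matrix.SpecialLinearGroup.ext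
    intro i j
    fin_cases i <;> fin_cases j <;> rfl

lemma mkSL_GL (a b c d : ℤ) (h : a * d - b * c = 1) :
    ((mkSL a b c d h : GL (Fin 2) ℝ) : Matrix (Fin 2) (Fin 2) ℝ) = !![(a : ℝ), (b : ℝ); (c : ℝ), (d : ℝ)] := by
  ext i j
  fin_cases i <;> fin_cases j <;> rfl

lemma al_GL (a b c d : ℤ) (h : 0 < a * d - b * c) :
    ((al a b c d h : GL (Fin 2) ℝ) : Matrix (Fin 2) (Fin 2) ℝ) = !![(a : ℝ), (b : ℝ); (c : ℝ), (d : ℝ)] := rfl

/-- equality of real matrices from integral ones -/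
lemma al_mul {a b c d a' b' c' d' : ℤ} (h : 0 < a * d - b * c) (h' : 0 < a' * d' - b' * c')
    (γ γ' : SL(2, ℤ))
    (e : !![a, b; c, d] * (γ : Matrix (Fin 2) (Fin 2) ℤ) = (γ' : Matrix (Fin 2) (Fin 2) ℤ) *
      !![a', b'; c', d']) :
    al a b c d h * (γ : GL (Fin 2) ℝ) = (γ' : GL (Fin 2) ℝ) * al a' b' c' d' h' := by
  obtain ⟨x, y, z, w, hx, rfl⟩ := exists_mkSL γ
  obtain ⟨x', y', z', w', hx', rfl⟩ := exists_mkSL γ'
  rw [mkSL_coe, mkSL_coe] at e
  apply Units.ext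
  rw [Units.val_mul, Units.val_mul, mkSL_GL, mkSL_GL, al_GL, al_GL]
  rw [Matrix.mul_fin_two, Matrix.mul_fin_two] at e ⊢
  have h00 := congrFun (congrFun e 0) 0
  have h01 := congrFun (congrFun e 0) 1
  have h10 := congrFun (congrFun e 1) 0
  have h11 := congrFun (congrFun e 1) 1
  simp at h00 h01 h10 h11
  ext i j
  fin_cases i <;> fin_cases j <;> simp
  · exact_mod_cast h00
  · exact_mod_cast h01
  · exact_mod_cast h10
  · exact_mod_cast h11

lemma al_mul_inj {a b c d a' b' c' d' : ℤ} (h : 0 < a * d - b * c) (h' : 0 < a' * d' - b' * c')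
    (x' y' z' w' : ℤ) (hx' : x' * w' - y' * z' = 1)
    (e : al a b c d h = (mkSL x' y' z' w' hx' : GL (Fin 2) ℝ) * al a' b' c' d' h') :
    !![a, b; c, d] = !![x', y'; z', w'] * !![a', b'; c', d'] := by
  have e1 := congrArg (fun g : GL (Fin 2) ℝ => (g : Matrix (Fin 2) (Fin 2) ℝ)) e
  simp only [Units.val_mul, mkSL_GL, al_GL] at e1
  rw [Matrix.mul_fin_two] at e1 ⊢
  have h00 := congrFun (congrFun e1 0) 0
  have h01 := congrFun (congrFun e1 0) 1
  have h10 := congrFun (congrFun e1 1) 0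
  have h11 := congrFun (congrFun e1 1) 1
  simp at h00 h01 h10 h11
  ext i j
  fin_cases i <;> fin_cases j <;> simp
  · exact_mod_cast h00
  · exact_mod_cast h01
  · exact_mod_cast h10
  · exact_mod_cast h11

lemma rep_pos_none {p : ℕ} (hp : 0 < p) : (0 : ℤ) < (p : ℤ) * 1 - 0 * 0 := by simpa using hp

lemma rep_pos_some {p : ℕ} (hp : 0 < p) (j : ℕ) : (0 : ℤ) < 1 * (p : ℤ) - (j : ℤ) * 0 := by
  simpa using hp

/-- the representatives -/
noncomputable def rep (p : ℕ) (hp : 0 < p) : Option (Fin p) → GL (Fin 2) ℝ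
  | none => al p 0 0 1 (rep_pos_none hp)
  | some j => al 1 (j : ℕ) 0 p (rep_pos_some hp j)

/-- the set of indices of the representatives -/
noncomputable def idx (N p : ℕ) : Finset (Option (Fin p)) :=
  if p ∣ N then Finset.univ.erase none else Finset.univ

lemma some_mem_idx (N p : ℕ) (j : Fin p) : some j ∈ idx N p := by
  unfold idx
  split_ifs <;> simp

lemma none_mem_idx (N p : ℕ) : none ∈ idx N p ↔ ¬ p ∣ N := by
  unfold idx
  split_ifs with h <;> simp [h]

lemma rep_inj {p : ℕ} (hp : p.Prime) {i j : Option (Fin p)} (γ' : SL(2, ℤ))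
    (e : rep p hp.pos i = (γ' : GL (Fin 2) ℝ) * rep p hp.pos j) : i = j := by
  have hp1 : 1 < (p : ℤ) := by exact_mod_cast hp.one_lt
  obtain ⟨x, y, z, w, hx, rfl⟩ := exists_mkSL γ'
  rcases i with _ | i <;> rcases j with _ | j
  · rfl
  · exfalso
    have h1 := al_mul_inj (rep_pos_none hp.pos) (rep_pos_some hp.pos j) x y z w hx e
    rw [Matrix.mul_fin_two] at h1
    have h10 := congrFun (congrFun h1 1) 0
    have h11 := congrFun (congrFun h1 1) 1
    simp at h10 h11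
    rw [← h10, zero_mul, zero_add] at h11
    have : (p : ℤ) ∣ 1 := Dvd.intro_left _ h11.symm
    have := Int.le_of_dvd one_pos this
    omega
  · exfalso
    have h1 := al_mul_inj (rep_pos_some hp.pos i) (rep_pos_none hp.pos) x y z w hx e
    rw [Matrix.mul_fin_two] at h1
    have h00 := congrFun (congrFun h1 0) 0
    simp at h00
    have : (p : ℤ) ∣ 1 := Dvd.intro_left _ h00.symm
    have := Int.le_of_dvd one_pos this
    omega
  · have h1 := al_mul_inj (rep_pos_some hp.pos i) (rep_pos_some hp.pos j) x y z w hx e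
    rw [Matrix.mul_fin_two] at h1
    have h00 := congrFun (congrFun h1 0) 0
    have h01 := congrFun (congrFun h1 0) 1
    simp at h00 h01
    rw [← h00, one_mul] at h01
    have h2 : ((i : ℕ) : ℤ) % p = ((j : ℕ) : ℤ) % p := by
      rw [h01, Int.add_mul_emod_self_right]
    rw [Int.emod_eq_of_lt (by positivity) (by exact_mod_cast i.2),
      Int.emod_eq_of_lt (by positivity) (by exact_mod_cast j.2)] at h2
    congr 1
    apply Fin.ext
    exact_mod_cast h2

lemma exists_solution {p : ℕ} (hp : p.Prime) (x y : ℤ) (hx : ¬ (p : ℤ) ∣ x) :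
    ∃ (j : Fin p) (t : ℤ), y - x * (j : ℕ) = p * t := by
  have : Fact p.Prime := ⟨hp⟩
  have : NeZero p := ⟨hp.ne_zero⟩
  have hx' : (x : ZMod p) ≠ 0 := by
    rwa [Ne, ZMod.intCast_zmod_eq_zero_iff_dvd]
  let j : ZMod p := (y : ZMod p) * (x : ZMod p)⁻¹
  have h1 : ((y - x * (j.val : ℕ) : ℤ) : ZMod p) = 0 := by
    push_cast
    rw [ZMod.natCast_zmod_val]
    simp only [j]
    field_simp
    ring
  rw [ZMod.intCast_zmod_eq_zero_iff_dvd] at h1
  obtain ⟨t, ht⟩ := h1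
  exact ⟨⟨j.val, ZMod.val_lt j⟩, t, ht⟩

lemma rep_mul {p : ℕ} (hp : p.Prime) {γ : SL(2, ℤ)} (hγ : γ ∈ Gamma0 N) {i : Option (Fin p)}
    (hi : i ∈ idx N p) : ∃ j ∈ idx N p, ∃ γ' ∈ Gamma0 N,
      rep p hp.pos i * (γ : GL (Fin 2) ℝ) = (γ' : GL (Fin 2) ℝ) * rep p hp.pos j := by
  have hp0 : (0 : ℤ) < p := by exact_mod_cast hp.pos
  have hpp : Prime (p : ℤ) := Nat.prime_iff_prime_int.1 hp
  obtain ⟨a, b, c, d, hdet, rfl⟩ := exists_mkSL γ
  rw [mkSL_mem] at hγ
  have hpa : p ∣ N → ¬ (p : ℤ) ∣ a := by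
    intro h1 h2
    have h3 : (p : ℤ) ∣ c := (by exact_mod_cast h1 : (p : ℤ) ∣ N).trans hγ
    have h4 : (p : ℤ) ∣ 1 := by
      rw [← hdet]
      exact dvd_sub (h2.mul_right _) (h3.mul_left _)
    exact hpp.not_dvd_one h4
  rcases i with _ | i
  · have hpN : ¬ p ∣ N := (none_mem_idx N p).1 hi
    by_cases hpc : (p : ℤ) ∣ c
    · obtain ⟨c', hc'⟩ := hpc
      have hNc' : (N : ℤ) ∣ c' := by
        have h1 : IsCoprime (N : ℤ) (p : ℤ) := by
          rw [Nat.isCoprime_iff_coprime, Nat.coprime_comm, hp.coprime_iff_not_dvd]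
          exact hpN
        exact h1.dvd_of_dvd_mul_left (hc' ▸ hγ)
      refine ⟨none, hi, mkSL a (p * b) c' d (by rw [hc'] at hdet; linarith),
        (mkSL_mem _ _ _ _ _ _).2 hNc', ?_⟩
      refine al_mul (rep_pos_none hp.pos) (rep_pos_none hp.pos) _ _ ?_
      rw [mkSL_coe, mkSL_coe, Matrix.mul_fin_two, Matrix.mul_fin_two, hc']
      ext u v
      fin_cases u <;> fin_cases v <;> simp <;> ring
    · obtain ⟨j, t, ht⟩ := exists_solution hp c d hpc
      refine ⟨some j, some_mem_idx N p j, mkSL (p * a) (b - a * (j : ℕ)) c t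
        (by linear_combination hdet - a * ht), (mkSL_mem _ _ _ _ _ _).2 hγ, ?_⟩
      refine al_mul (rep_pos_none hp.pos) (rep_pos_some hp.pos j) _ _ ?_
      rw [mkSL_coe, mkSL_coe, Matrix.mul_fin_two, Matrix.mul_fin_two]
      ext u v
      fin_cases u <;> fin_cases v <;> simp
      · ring
      · linarith
  · by_cases hpx : (p : ℤ) ∣ (a + (i : ℕ) * c)
    · obtain ⟨a', ha'⟩ := hpx
      have hpN : ¬ p ∣ N := by
        intro h1
        apply hpa h1
        have h3 : (p : ℤ) ∣ c := (by exact_mod_cast h1 : (p : ℤ) ∣ N).trans hγ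
        have : a = p * a' - (i : ℕ) * c := by linarith
        rw [this]
        exact dvd_sub (dvd_mul_right _ _) (h3.mul_left _)
      refine ⟨none, (none_mem_idx N p).2 hpN, mkSL a' (b + (i : ℕ) * d) c (p * d)
        (by linear_combination hdet - d * ha'), (mkSL_mem _ _ _ _ _ _).2 hγ, ?_⟩
      refine al_mul (rep_pos_some hp.pos i) (rep_pos_none hp.pos) _ _ ?_
      rw [mkSL_coe, mkSL_coe, Matrix.mul_fin_two, Matrix.mul_fin_two]
      ext u v
      fin_cases u <;> fin_cases v <;> simp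
      · linarith
      · ring
    · obtain ⟨j, t, ht⟩ := exists_solution hp (a + (i : ℕ) * c) (b + (i : ℕ) * d) hpx
      refine ⟨some j, some_mem_idx N p j, mkSL (a + (i : ℕ) * c) t (p * c) (d - c * (j : ℕ))
        (by linear_combination hdet + c * ht), (mkSL_mem _ _ _ _ _ _).2 (hγ.mul_left _), ?_⟩
      refine al_mul (rep_pos_some hp.pos i) (rep_pos_some hp.pos j) _ _ ?_
      rw [mkSL_coe, mkSL_coe, Matrix.mul_fin_two, Matrix.mul_fin_two]
      ext u v
      fin_cases u <;> fin_cases v <;> simp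
      · linarith
      · ring

/-- invariance of the sum over the representatives -/
lemma sum_slash {p : ℕ} (hp : p.Prime) {γ : SL(2, ℤ)} (hγ : γ ∈ Gamma0 N) :
    (∑ i ∈ idx N p, (f : ℍ → ℂ) ∣[k] rep p hp.pos i) ∣[k] (γ : GL (Fin 2) ℝ) =
      ∑ i ∈ idx N p, (f : ℍ → ℂ) ∣[k] rep p hp.pos i := by
  classical
  rw [SlashAction.sum_slash]
  choose! σ hσ γ' hγ' he using fun (i : Option (Fin p)) (hi : i ∈ idx N p) => rep_mul hp hγ hi
  have h1 : ∀ i ∈ idx N p, ((f : ℍ → ℂ) ∣[k] rep p hp.pos i) ∣[k] (γ : GL (Fin 2) ℝ) =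
      (f : ℍ → ℂ) ∣[k] rep p hp.pos (σ i) := by
    intro i hi
    rw [← SlashAction.slash_mul, he i hi, SlashAction.slash_mul]
    congr 1
    exact SlashInvariantFormClass.slash_action_eq f _ ⟨γ' i, hγ' i hi, rfl⟩
  rw [Finset.sum_congr rfl h1]
  have hinj : Set.InjOn σ (idx N p) := by
    intro i hi j hj hij
    have e1 := he i hi
    have e2 := he j hj
    rw [← hij] at e2
    have e3 : rep p hp.pos i = ((γ' i * (γ' j)⁻¹ : SL(2, ℤ)) : GL (Fin 2) ℝ) * rep p hp.pos j := by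
      have e4 : rep p hp.pos i = ((γ' i : SL(2, ℤ)) : GL (Fin 2) ℝ) * rep p hp.pos (σ i) *
          ((γ : SL(2, ℤ)) : GL (Fin 2) ℝ)⁻¹ := by
        rw [← e1, mul_inv_cancel_right]
      have e5 : rep p hp.pos j = ((γ' j : SL(2, ℤ)) : GL (Fin 2) ℝ) * rep p hp.pos (σ i) *
          ((γ : SL(2, ℤ)) : GL (Fin 2) ℝ)⁻¹ := by
        rw [← e2, mul_inv_cancel_right]
      rw [e4, e5]
      simp only [map_mul, map_inv]
      group
    exact rep_inj hp _ e3
  have himg : (idx N p).image σ = idx N p := by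
    apply Finset.eq_of_subset_of_card_le
    · intro x hx
      obtain ⟨i, hi, rfl⟩ := Finset.mem_image.1 hx
      exact hσ i hi
    · rw [Finset.card_image_of_injOn hinj]
  conv_rhs => rw [← himg]
  rw [Finset.sum_image hinj]

lemma heckeT_eq {p : ℕ} (hp : p.Prime) :
    heckeT N k p f = ∑ i ∈ idx N p, (f : ℍ → ℂ) ∣[k] rep p hp.pos i := by
  classical
  have hpC : (p : ℂ) ≠ 0 := by exact_mod_cast hp.ne_zero
  have hpk : (p : ℂ) ^ (k - 1) * (p : ℂ) ^ (-k) = (p : ℂ)⁻¹ := by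
    rw [← zpow_add₀ hpC, show k - 1 + -k = -1 by ring, zpow_neg_one]
  have h1 : ∀ z : ℍ, ((f : ℍ → ℂ) ∣[k] rep p hp.pos none) z =
      (p : ℂ) ^ (k - 1) * f (ofComplex ((p : ℂ) * z)) := by
    intro z
    change ((f : ℍ → ℂ) ∣[k] al p 0 0 1 (rep_pos_none hp.pos)) z = _
    rw [slash_al]
    simp
    ring
  have h2 : ∀ (j : Fin p) (z : ℍ), ((f : ℍ → ℂ) ∣[k] rep p hp.pos (some j)) z =
      f (ofComplex (((z : ℂ) + (j : ℕ)) / p)) / p := by
    intro j z
    change ((f : ℍ → ℂ) ∣[k] al 1 (j : ℕ) 0 p (rep_pos_some hp.pos j)) z = _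
    rw [slash_al]
    simp only [Int.cast_one, one_mul, Int.cast_zero, zero_mul, zero_add, mul_zero, sub_zero,
      Int.cast_natCast]
    rw [mul_assoc, hpk, ← div_eq_mul_inv (f _)]
  funext z
  rw [Finset.sum_apply]
  have h3 : idx N p = (if p ∣ N then ∅ else {none}) ∪ Finset.univ.image (some : Fin p → Option (Fin p)) := by
    ext x
    rcases x with _ | x
    · rw [none_mem_idx]
      by_cases h : p ∣ N <;> simp [h]
    · simp [some_mem_idx]
  rw [h3, Finset.sum_union (by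
    split_ifs
    · simp
    · rw [Finset.disjoint_singleton_left]
      simp), Finset.sum_image (fun a _ b _ h => Option.some.inj h)]
  simp_rw [h2]
  unfold heckeT
  congr 1
  · split_ifs with h
    · simp
    · rw [Finset.sum_singleton, h1]
  · rw [Finset.sum_div, Finset.sum_range]

lemma hecke_slash {p : ℕ} (hp : p.Prime) (g : GL (Fin 2) ℝ)
    (hg : g ∈ (Gamma0 N : Subgroup (GL (Fin 2) ℝ))) :
    heckeT N k p f ∣[k] g = heckeT N k p f := by
  obtain ⟨γ, hγ, rfl⟩ := hg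
  rw [heckeT_eq f hp]
  exact sum_slash f hp hγ

lemma hecke_holo {p : ℕ} (hp : p.Prime) :
    MDifferentiable (modelWithCornersSelf ℂ ℂ) (modelWithCornersSelf ℂ ℂ) (heckeT N k p f) := by
  rw [heckeT_eq f hp]
  refine MDifferentiable.sum fun i _ => ?_
  rcases i with _ | j
  · exact holo_slash f p 0 0 1 (rep_pos_none hp.pos)
  · exact holo_slash f 1 (j : ℕ) 0 p (rep_pos_some hp.pos j)

lemma hecke_zero [NeZero N] {p : ℕ} (hp : p.Prime) {c : OnePoint ℝ}
    (hc : IsCusp c (Gamma0 N : Subgroup (GL (Fin 2) ℝ))) :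
    OnePoint.IsZeroAt c (heckeT N k p f) k := by
  intro g hg
  rw [heckeT_eq f hp, SlashAction.sum_slash]
  unfold IsZeroAtImInfty ZeroAtFilter
  rw [Finset.sum_fn, show (0 : ℂ) = ∑ i ∈ idx N p, 0 by simp]
  refine tendsto_finsetSum _ fun i _ => ?_
  rcases i with _ | j
  · exact zero_slash' f p 0 0 1 (rep_pos_none hp.pos) hc g hg
  · exact zero_slash' f 1 (j : ℕ) 0 p (rep_pos_some hp.pos j) hc g hg

/-- the Hecke operators on cusp forms -/
noncomputable def heckeForm [NeZero N] {p : ℕ} (hp : p.Prime) :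
    CuspForm (Gamma0 N : Subgroup (GL (Fin 2) ℝ)) k where
  toFun := heckeT N k p f
  slash_action_eq' := hecke_slash f hp
  holo' := hecke_holo f hp
  zero_at_cusps' := hecke_zero f hp

lemma heckeForm_apply [NeZero N] {p : ℕ} (hp : p.Prime) (z : ℍ) :
    heckeForm f hp z = heckeT N k p f z := rfl

end Pool.Agent.W97.TW
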