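import Pool.Agent.W97.TW.HeckeForm

/-!
The discriminant is a newform of level one and weight `12`.
-/

set_option autoImplicit false

open UpperHalfPlane MatrixGroups CongruenceSubgroup Filter Topology
open scoped ModularForm Pointwise

namespace Pool.Agent.W97.TW

lemma coe_Gamma0_one_le (N : ℕ) : (Gamma0 N : Subgroup (GL (Fin 2) ℝ)) ≤ 𝒮ℒ := by
  rintro _ ⟨γ, _, rfl⟩
  exact ⟨γ, rfl⟩

lemma le_coe_Gamma0_one : 𝒮ℒ ≤ (Gamma0 1 : Subgroup (GL (Fin 2) ℝ)) := by
  rintro _ ⟨γ, rfl⟩
  refine ⟨γ, ?_, rfl⟩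
  change γ ∈ Gamma0 1
  rw [Gamma0_mem]
  exact Subsingleton.elim _ _

/-- the discriminant as a form on `Γ_0(1)` -/
noncomputable def deltaForm : CuspForm (Gamma0 1 : Subgroup (GL (Fin 2) ℝ)) 12 where
  toFun := CuspForm.discriminant
  slash_action_eq' g hg := CuspForm.discriminant.slash_action_eq' g (coe_Gamma0_one_le 1 hg)
  holo' := CuspForm.discriminant.holo'
  zero_at_cusps' hc := CuspForm.discriminant.zero_at_cusps' (hc.mono (coe_Gamma0_one_le 1))

/-- forms on `Γ_0(1)` as forms on `SL(2, ℤ)` -/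
noncomputable def toSL {k : ℤ} (f : CuspForm (Gamma0 1 : Subgroup (GL (Fin 2) ℝ)) k) :
    CuspForm 𝒮ℒ k where
  toFun := f
  slash_action_eq' g hg := f.slash_action_eq' g (le_coe_Gamma0_one hg)
  holo' := f.holo'
  zero_at_cusps' hc := f.zero_at_cusps' (hc.mono le_coe_Gamma0_one)

theorem deltaForm_apply (z : ℍ) : deltaForm z = ModularForm.eta z ^ 24 := rfl

theorem isNewform_delta : IsNewform 1 12 deltaForm where
  coeff_one := ModularForm.discriminant_qExpansion_coeff_one
  hecke := by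
    intro p
    obtain ⟨c, hc⟩ := CuspForm.exists_smul_discriminant_of_weight_eq_twelve
      (toSL (heckeForm deltaForm p.2))
    refine ⟨c, fun z => ?_⟩
    have h1 := congrArg (fun g : CuspForm 𝒮ℒ 12 => g z) hc
    exact h1.symm
  fricke := by
    refine ⟨1, fun z => ?_⟩
    have h1 := SlashInvariantForm.slash_action_eqn_SL'' (Γ := Gamma0 1) deltaForm
      (γ := ModularGroup.S) (by
        rw [Gamma0_mem]
        exact Subsingleton.elim _ _) z
    rw [modular_S_smul, ModularGroup.denom_S] at h1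
    have h2 : ofComplex (-1 / (((1 : ℕ) : ℂ) * z)) = ModularGroup.S • z := by
      have h3 : -1 / (((1 : ℕ) : ℂ) * z) = ((ModularGroup.S • z : ℍ) : ℂ) := by
        rw [modular_S_smul]
        change _ = (-(z : ℂ))⁻¹
        rw [inv_neg]
        push_cast
        ring
      rw [h3, ofComplex_apply]
    rw [h2, modular_S_smul, h1, one_mul]

end Pool.Agent.W97.TW
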