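import Pool.Agent.W97.TW.EtaSq
import Pool.Agent.W97.TW.Delta

/-!
The form `η(z)² η(11z)²` of weight `2` and level `11`.
-/

set_option autoImplicit false

open UpperHalfPlane MatrixGroups CongruenceSubgroup Filter Topology Asymptotics
open scoped ModularForm Pointwise

namespace Pool.Agent.W97.TW

/-- `η(z)² η(11z)²` -/
noncomputable def e11 (z : ℍ) : ℂ := ModularForm.eta z ^ 2 * ModularForm.eta (11 * z) ^ 2

lemma e11_eq (z : ℍ) : e11 z = G z * G (11 * z) := rfl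

lemma im_mul_nat {w : ℂ} (hw : 0 < w.im) {n : ℕ} (hn : 0 < n) : 0 < ((n : ℂ) * w).im := by
  rw [Complex.mul_im]
  simp only [Complex.natCast_re, Complex.natCast_im, zero_mul, add_zero]
  have : (0 : ℝ) < n := by exact_mod_cast hn
  positivity

lemma e11_ne (z : ℍ) : e11 z ≠ 0 := by
  unfold e11
  refine mul_ne_zero (pow_ne_zero _ (ModularForm.eta_ne_zero z.2))
    (pow_ne_zero _ (ModularForm.eta_ne_zero ?_))
  exact im_mul_nat z.im_pos (n := 11) (by norm_num)

lemma mkSL_smul {a b c d : ℤ} (h : a * d - b * c = 1) (z : ℍ) :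
    (((mkSL a b c d h) • z : ℍ) : ℂ) = (a * z + b) / (c * z + d) := by
  rw [coe_specialLinearGroup_apply]
  simp only [algebraMap_int_eq, eq_intCast, Complex.ofReal_intCast]
  rfl

lemma mkSL_denom {a b c d : ℤ} (h : a * d - b * c = 1) (z : ℍ) :
    denom (mkSL a b c d h : GL (Fin 2) ℝ) z = c * z + d := by
  rw [ModularGroup.denom_apply]
  rfl

lemma e11_slash {γ : SL(2, ℤ)} (hγ : γ ∈ Gamma0 11) : e11 ∣[(2 : ℤ)] γ = e11 := by
  obtain ⟨a, b, c, d, h, rfl⟩ := exists_mkSL γ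
  rw [mkSL_mem] at hγ
  obtain ⟨c, rfl⟩ := hγ
  funext z
  rw [ModularForm.SL_slash_apply, e11_eq, e11_eq, mkSL_smul, mkSL_denom]
  have h' : a * d - (11 * b) * c = 1 := by push_cast at h; linarith
  have him : 0 < ((11 : ℂ) * z).im := im_mul_nat z.im_pos (n := 11) (by norm_num)
  have h0 := (im_moebius h z.im_pos).2
  have h1 := G_moebius h z.im_pos
  have h2 := G_moebius h' him
  have e1 : (11 : ℂ) * ((a * z + b) / (((((11 : ℕ) : ℤ) * c : ℤ) : ℂ) * z + d)) =
      (a * (11 * z) + ((11 * b : ℤ) : ℂ)) / (c * (11 * z) + d) := by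
    push_cast
    rw [← mul_div_assoc]
    congr 1 <;> ring
  rw [e1, h2]
  have h1' : G ((a * (z : ℂ) + b) / (((((11 : ℕ) : ℤ) * c : ℤ) : ℂ) * z + d)) =
    ze ^ (kap a b (((11 : ℕ) : ℤ) * c) d) * ((((((11 : ℕ) : ℤ) * c : ℤ) : ℂ)) * z + d) * G z := h1
  rw [h1']
  have e2 : ze ^ (kap a b (((11 : ℕ) : ℤ) * c) d) * ze ^ (kap a (11 * b) c d) = 1 := by
    rw [← zpow_add₀ ze_ne]
    have h3 := kap_11 (a := a) (b := b) (c := c) (d := d) (by push_cast at h; linarith)
    have h4 := ze_congr (m := kap a b (((11 : ℕ) : ℤ) * c) d + kap a (11 * b) c d) (n := 0)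
      (by rw [sub_zero]; exact_mod_cast h3)
    rw [h4, zpow_zero]
  have e3 : (c : ℂ) * (11 * z) + d = (((((11 : ℕ) : ℤ) * c : ℤ) : ℂ)) * z + d := by
    push_cast; ring
  rw [e3]
  set X := ((((((11 : ℕ) : ℤ) * c : ℤ) : ℂ)) * (z : ℂ) + d) with hX
  have e4 : X * X * X ^ (-2 : ℤ) = 1 := by
    rw [zpow_neg, ← sq]
    exact mul_inv_cancel₀ (pow_ne_zero 2 h0)
  linear_combination (G z * G (11 * z) * (X * X * X ^ (-2 : ℤ))) * e2 + (G z * G (11 * z)) * e4

lemma e11_holo : MDifferentiable (modelWithCornersSelf ℂ ℂ) (modelWithCornersSelf ℂ ℂ) e11 := by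
  rw [UpperHalfPlane.mdifferentiable_iff]
  have h1 : DifferentiableOn ℂ (fun w : ℂ => ModularForm.eta w ^ 2 * ModularForm.eta (11 * w) ^ 2)
      {z : ℂ | 0 < z.im} := by
    intro w hw
    have hw' : 0 < w.im := hw
    have him : 0 < ((11 : ℂ) * w).im := im_mul_nat hw' (n := 11) (by norm_num)
    have h2 := ModularForm.differentiableAt_eta_of_mem_upperHalfPlaneSet hw
    have h3 := ModularForm.differentiableAt_eta_of_mem_upperHalfPlaneSet
      (show (11 : ℂ) * w ∈ upperHalfPlaneSet from him)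
    have h4 : DifferentiableAt ℂ (fun w : ℂ => ModularForm.eta (11 * w)) w :=
      DifferentiableAt.comp w h3 (by fun_prop)
    exact ((h2.pow 2).mul (h4.pow 2)).differentiableWithinAt
  refine h1.congr fun w hw => ?_
  simp only [Function.comp_apply]
  unfold e11
  rw [ofComplex_apply_of_im_pos hw]

/-- the twelfth power -/
lemma e11_pow (z : ℍ) : e11 z ^ 12 * 11 ^ 11 = ModularForm.discriminant z *
    ((ModularForm.discriminant : ℍ → ℂ) ∣[(12 : ℤ)] rep 11 (by norm_num) none) z := by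
  have h1 : ((ModularForm.discriminant : ℍ → ℂ) ∣[(12 : ℤ)] rep 11 (by norm_num) none) z =
      11 ^ 11 * ModularForm.eta (11 * z) ^ 24 := by
    change ((ModularForm.discriminant : ℍ → ℂ) ∣[(12 : ℤ)] al (11 : ℕ) 0 0 1 (rep_pos_none (by norm_num))) z = _
    have him : 0 < ((11 : ℂ) * z).im := im_mul_nat z.im_pos (n := 11) (by norm_num)
    rw [slash_al]
    simp only [Int.cast_natCast, Int.cast_zero, add_zero, zero_mul, Int.cast_one, zero_add, div_one,
      one_zpow, mul_one, sub_zero]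
    unfold ModularForm.discriminant
    have e : ((11 : ℕ) : ℂ) = 11 := by norm_num
    rw [e, ofComplex_apply_of_im_pos him]
    norm_num
    ring
  rw [h1]
  unfold e11 ModularForm.discriminant
  ring

lemma disc_slash (γ : SL(2, ℤ)) : (ModularForm.discriminant : ℍ → ℂ) ∣[(12 : ℤ)] γ =
    ModularForm.discriminant :=
  CuspForm.discriminant.slash_action_eq' (γ : GL (Fin 2) ℝ) ⟨γ, rfl⟩

/-- the key identity at all cusps -/
lemma e11_cusp (γ : SL(2, ℤ)) : ∃ j : Option (Fin 11), (j = none → γ ∈ Gamma0 11) ∧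
    ∀ z : ℍ, (e11 ∣[(2 : ℤ)] γ) z ^ 12 * 11 ^ 11 = ModularForm.discriminant z *
      ((ModularForm.discriminant : ℍ → ℂ) ∣[(12 : ℤ)] rep 11 (by norm_num) j) z := by
  have hp : Nat.Prime 11 := by norm_num
  obtain ⟨j, -, γ', -, he⟩ := rep_mul (N := 1) hp (γ := γ) (by
    rw [Gamma0_mem]; exact Subsingleton.elim _ _) (i := none) ((none_mem_idx 1 11).2 (by norm_num))
  refine ⟨j, ?_, ?_⟩
  · rintro rfl
    obtain ⟨a, b, c, d, h, rfl⟩ := exists_mkSL γ
    obtain ⟨x, y, u, v, hx, rfl⟩ := exists_mkSL γ'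
    rw [mkSL_mem]
    have e1 := congrArg (fun g : GL (Fin 2) ℝ => (g : Matrix (Fin 2) (Fin 2) ℝ) 1 0) he
    change ((al (11 : ℕ) 0 0 1 (rep_pos_none hp.pos) * (mkSL a b c d h : GL (Fin 2) ℝ) : GL (Fin 2) ℝ) :
      Matrix (Fin 2) (Fin 2) ℝ) 1 0 = (((mkSL x y u v hx : GL (Fin 2) ℝ) *
        al (11 : ℕ) 0 0 1 (rep_pos_none hp.pos) : GL (Fin 2) ℝ) : Matrix (Fin 2) (Fin 2) ℝ) 1 0 at e1
    rw [Units.val_mul, Units.val_mul, mkSL_GL, mkSL_GL, al_GL, Matrix.mul_fin_two,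
      Matrix.mul_fin_two] at e1
    simp at e1
    have e2 : c = u * 11 := by
      have : (c : ℝ) = ((u * 11 : ℤ) : ℝ) := by push_cast; linarith
      exact_mod_cast this
    rw [e2]
    exact dvd_mul_left _ _
  · intro z
    have h1 := e11_pow (γ • z)
    have h2 : ((ModularForm.discriminant : ℍ → ℂ) ∣[(12 : ℤ)] rep 11 (by norm_num) j) z =
        ((ModularForm.discriminant : ℍ → ℂ) ∣[(12 : ℤ)] rep 11 (by norm_num) none) (γ • z) *
          denom (γ : GL (Fin 2) ℝ) z ^ (-12 : ℤ) := by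
      have h3 : (ModularForm.discriminant : ℍ → ℂ) ∣[(12 : ℤ)] rep 11 hp.pos j =
          ((ModularForm.discriminant : ℍ → ℂ) ∣[(12 : ℤ)] rep 11 hp.pos none) ∣[(12 : ℤ)] γ := by
        rw [ModularForm.SL_slash, ← SlashAction.slash_mul, he, SlashAction.slash_mul]
        congr 1
        exact (disc_slash γ').symm
      rw [h3, ModularForm.SL_slash_apply]
    have h4 := congrFun (disc_slash γ) z
    rw [ModularForm.SL_slash_apply] at h4
    rw [ModularForm.SL_slash_apply, h2, ← h4, mul_pow]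
    have h5 : (denom (γ : GL (Fin 2) ℝ) z ^ (-2 : ℤ)) ^ 12 =
        denom (γ : GL (Fin 2) ℝ) z ^ (-12 : ℤ) * denom (γ : GL (Fin 2) ℝ) z ^ (-12 : ℤ) := by
      rw [← zpow_natCast, ← zpow_mul, ← zpow_add₀ (denom_ne_zero _ z)]
      norm_num
    rw [h5]
    linear_combination (denom (γ : GL (Fin 2) ℝ) z ^ (-12 : ℤ) * denom (γ : GL (Fin 2) ℝ) z ^ (-12 : ℤ)) * h1

/-- the point `(z + j)/11` or `11 z` -/
noncomputable def pt11 (j : Option (Fin 11)) (z : ℍ) : ℍ := rep 11 (by norm_num) j • z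

/-- the height of `pt11 j z` is `h11 j * Im z` -/
noncomputable def h11 : Option (Fin 11) → ℝ
  | none => 11
  | some _ => 1 / 11

lemma h11_pos (j : Option (Fin 11)) : 0 < h11 j := by
  rcases j with _ | j <;> norm_num [h11]

lemma al_im (a b c d : ℤ) (h : 0 < a * d - b * c) (z : ℍ) :
    ((al a b c d h • z : ℍ) : ℂ) = (a * (z : ℂ) + b) / (c * z + d) := by
  have hdet : 0 < (al a b c d h).det.val := by
    rw [al_det]; exact_mod_cast h
  rw [coe_smul_of_det_pos hdet]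
  rfl

lemma pt11_im (j : Option (Fin 11)) (z : ℍ) : (pt11 j z).im = h11 j * z.im := by
  rcases j with _ | j
  · change ((al (11 : ℕ) 0 0 1 (rep_pos_none (by norm_num)) • z : ℍ) : ℂ).im = _
    rw [al_im]
    simp [h11]
  · change ((al 1 (j : ℕ) 0 (11 : ℕ) (rep_pos_some (by norm_num) j) • z : ℍ) : ℂ).im = _
    rw [al_im]
    have e : (((1 : ℤ) : ℂ) * (z : ℂ) + (((j : ℕ) : ℤ) : ℂ)) / (((0 : ℤ) : ℂ) * (z : ℂ) + (((11 : ℕ) : ℤ) : ℂ)) =
        (((1 / 11 : ℝ)) : ℂ) * ((z : ℂ) + (j : ℕ)) := by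
      push_cast
      rw [zero_mul, zero_add, one_mul]
      ring
    rw [e, Complex.mul_im]
    simp [h11]

lemma tendsto_pt11 (j : Option (Fin 11)) : Tendsto (pt11 j) atImInfty atImInfty := by
  rw [atImInfty, tendsto_comap_iff]
  have : (UpperHalfPlane.im ∘ pt11 j) = fun z => h11 j * z.im := by
    funext z; exact pt11_im j z
  rw [this]
  exact (tendsto_comap).const_mul_atTop (h11_pos j)

/-- the constant in the slash action -/
lemma slash_rep (j : Option (Fin 11)) : ∃ c : ℂ, c ≠ 0 ∧ ∀ z : ℍ,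
    ((ModularForm.discriminant : ℍ → ℂ) ∣[(12 : ℤ)] rep 11 (by norm_num) j) z =
      c * ModularForm.discriminant (pt11 j z) := by
  rcases j with _ | j
  · refine ⟨11 ^ 11, by norm_num, fun z => ?_⟩
    change ((ModularForm.discriminant : ℍ → ℂ) ∣[(12 : ℤ)] al (11 : ℕ) 0 0 1 (rep_pos_none (by norm_num))) z = _
    have h1 : ofComplex ((((((11 : ℕ) : ℤ)) : ℂ) * (z : ℂ) + ((0 : ℤ) : ℂ)) /
        (((0 : ℤ) : ℂ) * z + ((1 : ℤ) : ℂ))) = pt11 none z := by
      rw [← al_im (11 : ℕ) 0 0 1 (rep_pos_none (by norm_num)), ofComplex_apply]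
      rfl
    rw [slash_al, h1]
    push_cast
    rw [zero_mul, zero_add, one_zpow]
    ring
  · refine ⟨11 ^ (-1 : ℤ), by norm_num, fun z => ?_⟩
    change ((ModularForm.discriminant : ℍ → ℂ) ∣[(12 : ℤ)] al 1 (j : ℕ) 0 (11 : ℕ) (rep_pos_some (by norm_num) j)) z = _
    have h1 : ofComplex ((((1 : ℤ) : ℂ) * (z : ℂ) + (((j : ℕ) : ℤ) : ℂ)) /
        (((0 : ℤ) : ℂ) * z + (((11 : ℕ) : ℤ) : ℂ))) = pt11 (some j) z := by
      rw [← al_im 1 (j : ℕ) 0 (11 : ℕ) (rep_pos_some (by norm_num) j), ofComplex_apply]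
      rfl
    rw [slash_al, h1]
    push_cast
    rw [zero_mul, zero_add, mul_zero, sub_zero]
    norm_num
    ring

lemma disc_upper : (ModularForm.discriminant : ℍ → ℂ) =O[atImInfty]
    (fun τ : ℍ => Real.exp (-2 * Real.pi * τ.im)) := by
  have h := CuspFormClass.exp_decay_atImInfty (Γ := 𝒮ℒ) (k := 12) (h := 1) CuspForm.discriminant one_pos
    (by rw [Subgroup.strictPeriods_SL2Z]; exact AddSubgroup.mem_zmultiples 1)
  simpa using h

lemma e11_zero (γ : SL(2, ℤ)) : IsZeroAtImInfty (e11 ∣[(2 : ℤ)] γ) := by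
  obtain ⟨j, -, hj⟩ := e11_cusp γ
  obtain ⟨c, -, hc⟩ := slash_rep j
  have h1 : Tendsto (fun z : ℍ => (e11 ∣[(2 : ℤ)] γ) z ^ 12) atImInfty (𝓝 0) := by
    have h2 : Tendsto (fun z : ℍ => ModularForm.discriminant z * (c * ModularForm.discriminant (pt11 j z)))
        atImInfty (𝓝 (0 * (c * 0))) :=
      (ModularForm.discriminant_isZeroAtImInfty : Tendsto _ _ _).mul
        (((ModularForm.discriminant_isZeroAtImInfty : Tendsto _ _ _).comp (tendsto_pt11 j)).const_mul c)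
    have h3 := h2.div_const ((11 : ℂ) ^ 11)
    rw [zero_mul, zero_div] at h3
    refine h3.congr fun z => ?_
    have h4 := hj z
    rw [hc] at h4
    rw [← h4]
    norm_num
  have h5 : (fun z : ℍ => (e11 ∣[(2 : ℤ)] γ) z ^ 12) =o[atImInfty] (fun _ : ℍ => (1 : ℝ) ^ 12) := by
    simp only [one_pow]
    exact (isLittleO_one_iff ℝ).2 h1
  exact (isLittleO_one_iff ℝ).1 (h5.of_pow (by norm_num))

/-- `η(z)² η(11z)²` as a cusp form -/
noncomputable def f11 : CuspForm (Gamma0 11 : Subgroup (GL (Fin 2) ℝ)) 2 where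
  toFun := e11
  slash_action_eq' := by
    rintro _ ⟨γ, hγ, rfl⟩
    exact e11_slash hγ
  holo' := e11_holo
  zero_at_cusps' := by
    intro c hc
    rw [Subgroup.IsArithmetic.isCusp_iff_isCusp_SL2Z] at hc
    rw [OnePoint.isZeroAt_iff_forall_SL2Z hc]
    intro γ _
    exact e11_zero γ

end Pool.Agent.W97.TW
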