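import Pool.Agent.W97.TW.Eleven

/-!
`S_2(Γ_0(11))` is one-dimensional, and `η(z)² η(11z)²` is a newform.
-/

set_option autoImplicit false

open UpperHalfPlane MatrixGroups CongruenceSubgroup Filter Topology Asymptotics
open scoped ModularForm Pointwise

namespace Pool.Agent.W97.TW

variable (g : CuspForm (Gamma0 11 : Subgroup (GL (Fin 2) ℝ)) 2)

lemma g_bound_one : (g : ℍ → ℂ) =O[atImInfty] (fun τ : ℍ => Real.exp (-2 * Real.pi * τ.im)) := by
  have h := CuspFormClass.exp_decay_atImInfty (Γ := (Gamma0 11 : Subgroup (GL (Fin 2) ℝ))) (k := 2)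
    (h := 1) g one_pos (by rw [strictPeriods_Gamma0]; exact AddSubgroup.mem_zmultiples 1)
  simpa using h

lemma g_bound_gen (γ : SL(2, ℤ)) : ((g : ℍ → ℂ) ∣[(2 : ℤ)] γ) =O[atImInfty]
    (fun τ : ℍ => Real.exp (-2 * Real.pi * τ.im / 11)) := by
  have hmem : (11 : ℝ) ∈ (ConjAct.toConjAct (γ : GL (Fin 2) ℝ)⁻¹ •
      (Gamma0 11 : Subgroup (GL (Fin 2) ℝ))).strictPeriods := by
    rw [Subgroup.mem_strictPeriods_iff, map_inv, Subgroup.mem_inv_pointwise_smul_iff,
      ConjAct.toConjAct_smul]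
    refine ⟨γ * ModularGroup.T ^ (11 : ℤ) * γ⁻¹, ?_, ?_⟩
    · change γ * ModularGroup.T ^ (11 : ℤ) * γ⁻¹ ∈ Gamma0 11
      have h1 : ModularGroup.T ^ (11 : ℤ) ∈ Gamma 11 := by
        have := ModularGroup_T_pow_mem_Gamma 11 11 (dvd_refl _)
        exact_mod_cast this
      have h2 : γ * ModularGroup.T ^ (11 : ℤ) * γ⁻¹ ∈ Gamma 11 := (Gamma_normal 11).conj_mem _ h1 γ
      rw [Gamma_mem] at h2
      rw [Gamma0_mem]
      exact h2.2.2.1
    · rw [map_mul, map_mul, map_inv]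
      congr 2
      ext i j
      have h3 : ((ModularGroup.T ^ (11 : ℤ) : SL(2, ℤ)) : Matrix (Fin 2) (Fin 2) ℤ) = !![1, 11; 0, 1] :=
        ModularGroup.coe_T_zpow 11
      change (((ModularGroup.T ^ (11 : ℤ) : SL(2, ℤ)) : Matrix (Fin 2) (Fin 2) ℤ) i j : ℝ) = _
      rw [h3]
      fin_cases i <;> fin_cases j <;> simp
  have h := CuspFormClass.exp_decay_atImInfty (k := 2)
    (h := 11) (CuspForm.translate g (γ : GL (Fin 2) ℝ)) (by norm_num) hmem
  exact h

lemma disc_lower {a : ℝ} (j : Option (Fin 11)) (ha : a = h11 j) :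
    (fun τ : ℍ => Real.exp (-2 * Real.pi * (a * τ.im))) =O[atImInfty]
      (fun z : ℍ => ModularForm.discriminant (pt11 j z)) := by
  have h := ModularForm.exp_isBigO_discriminant.comp_tendsto (tendsto_pt11 j)
  refine h.congr_left fun z => ?_
  simp only [Function.comp_apply]
  rw [pt11_im, ha]

lemma quot_bdd (γ : SL(2, ℤ)) :
    (fun z : ℍ => ((g : ℍ → ℂ) ∣[(2 : ℤ)] γ) z / (e11 ∣[(2 : ℤ)] γ) z) =O[atImInfty]
      (fun _ : ℍ => (1 : ℝ)) := by
  obtain ⟨j, hj0, hj⟩ := e11_cusp γ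
  obtain ⟨c, hc0, hc⟩ := slash_rep j
  -- the bound of the twelfth power of the numerator
  have h1 : (fun z : ℍ => ((g : ℍ → ℂ) ∣[(2 : ℤ)] γ) z ^ 12) =O[atImInfty]
      (fun z : ℍ => Real.exp (-2 * Real.pi * z.im) * Real.exp (-2 * Real.pi * (h11 j * z.im))) := by
    rcases j with _ | j
    · have hγ := hj0 rfl
      have h2 : ((g : ℍ → ℂ) ∣[(2 : ℤ)] γ) = g :=
        SlashInvariantFormClass.slash_action_eq g (γ : GL (Fin 2) ℝ) ⟨γ, hγ, rfl⟩
      rw [h2]
      refine ((g_bound_one g).pow 12).congr_right fun z => ?_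
      rw [← Real.exp_nat_mul, ← Real.exp_add]
      congr 1
      simp only [h11]
      push_cast
      ring
    · refine ((g_bound_gen g γ).pow 12).congr_right fun z => ?_
      rw [← Real.exp_nat_mul, ← Real.exp_add]
      congr 1
      simp only [h11]
      push_cast
      ring
  have h3 : (fun z : ℍ => Real.exp (-2 * Real.pi * z.im) * Real.exp (-2 * Real.pi * (h11 j * z.im)))
      =O[atImInfty] (fun z : ℍ => ModularForm.discriminant z * ModularForm.discriminant (pt11 j z)) :=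
    ModularForm.exp_isBigO_discriminant.mul (disc_lower j rfl)
  have h4 : (fun z : ℍ => ModularForm.discriminant z * ModularForm.discriminant (pt11 j z)) =O[atImInfty]
      (fun z : ℍ => (e11 ∣[(2 : ℤ)] γ) z ^ 12) := by
    refine IsBigO.of_bound (‖c‖⁻¹ * 11 ^ 11) (Eventually.of_forall fun z => ?_)
    have h5 := hj z
    rw [hc] at h5
    have h6 : ModularForm.discriminant z * ModularForm.discriminant (pt11 j z) =
        c⁻¹ * 11 ^ 11 * (e11 ∣[(2 : ℤ)] γ) z ^ 12 := by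
      field_simp
      linear_combination -h5
    rw [h6, norm_mul, norm_mul, norm_inv]
    simp
  have h7 := (h1.trans h3).trans h4
  have hne : ∀ z : ℍ, (e11 ∣[(2 : ℤ)] γ) z ≠ 0 := by
    intro z
    rw [ModularForm.SL_slash_apply]
    exact mul_ne_zero (e11_ne _) (zpow_ne_zero _ (denom_ne_zero _ z))
  have h8 : (fun z : ℍ => (((g : ℍ → ℂ) ∣[(2 : ℤ)] γ) z / (e11 ∣[(2 : ℤ)] γ) z) ^ 12) =O[atImInfty]
      (fun _ : ℍ => (1 : ℝ) ^ 12) := by
    have h9 := h7.mul (isBigO_refl (fun z : ℍ => ((e11 ∣[(2 : ℤ)] γ) z ^ 12)⁻¹) atImInfty)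
    refine (h9.congr (fun z => ?_) (fun z => ?_) (g₂ := fun _ => (1 : ℂ))).trans
      (isBigO_const_const (1 : ℂ) (by norm_num) _)
    · rw [div_pow, div_eq_mul_inv]
    · exact mul_inv_cancel₀ (pow_ne_zero _ (hne z))
  exact h8.of_pow (by norm_num)

/-- the quotient as a modular form of weight `0` -/
noncomputable def quotForm : ModularForm (Gamma0 11 : Subgroup (GL (Fin 2) ℝ)) 0 where
  toFun := fun z => g z / e11 z
  slash_action_eq' := by
    rintro _ ⟨γ, hγ, rfl⟩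
    change (fun z => g z / e11 z) ∣[(0 : ℤ)] γ = _
    funext z
    rw [ModularForm.SL_slash_apply, neg_zero, zpow_zero, mul_one]
    have h1 := congrFun (SlashInvariantFormClass.slash_action_eq g (γ : GL (Fin 2) ℝ) ⟨γ, hγ, rfl⟩) z
    have h2 := congrFun (e11_slash hγ) z
    rw [← ModularForm.SL_slash, ModularForm.SL_slash_apply] at h1
    rw [ModularForm.SL_slash_apply] at h2
    rw [← h1, ← h2]
    have h3 : denom (γ : GL (Fin 2) ℝ) z ^ (-2 : ℤ) ≠ 0 := zpow_ne_zero _ (denom_ne_zero _ z)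
    rw [mul_div_mul_right _ _ h3]
  holo' := by
    have h1 := g.holo'
    have h2 := e11_holo
    rw [UpperHalfPlane.mdifferentiable_iff] at h1 h2 ⊢
    exact h1.div h2 fun w _ => e11_ne _
  bdd_at_cusps' := by
    intro c hc
    rw [Subgroup.IsArithmetic.isCusp_iff_isCusp_SL2Z] at hc
    rw [OnePoint.isBoundedAt_iff_forall_SL2Z hc]
    intro γ _
    have h1 := quot_bdd g γ
    refine h1.congr_left fun z => ?_
    rw [ModularForm.SL_slash_apply, ModularForm.SL_slash_apply, ModularForm.SL_slash_apply,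
      neg_zero, zpow_zero, mul_one]
    have h3 : denom (γ : GL (Fin 2) ℝ) z ^ (-2 : ℤ) ≠ 0 := zpow_ne_zero _ (denom_ne_zero _ z)
    rw [mul_div_mul_right _ _ h3]

theorem dim_one : ∃ c : ℂ, ∀ z : ℍ, g z = c * e11 z := by
  obtain ⟨c, hc⟩ := ModularForm.eq_const_of_weight_zero (quotForm g)
  refine ⟨c, fun z => ?_⟩
  have h1 := congrFun hc z
  change g z / e11 z = c at h1
  rw [← h1, div_mul_cancel₀ _ (e11_ne z)]

end Pool.Agent.W97.TW
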