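import Mathlib

/-!
Newforms of level one and of prime level, and the `L`-functions of their twists.
-/

set_option autoImplicit false

open UpperHalfPlane MatrixGroups CongruenceSubgroup

namespace Pool.Agent.W97.TW

/-- The Hecke operator of weight `k` and level `N` at the prime `p` (`T_p` if `p ∤ N` and `U_p` if
`p ∣ N`) on functions on the upper half-plane:
`z ↦ [p ∤ N] p^(k-1) f(pz) + p^(-1) ∑_{b mod p} f((z+b)/p)`. -/
noncomputable def heckeT (N : ℕ) (k : ℤ) (p : ℕ) (f : ℍ → ℂ) (z : ℍ) : ℂ :=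
  (if p ∣ N then 0 else (p : ℂ) ^ (k - 1) * f (ofComplex ((p : ℂ) * z))) +
    (∑ b ∈ Finset.range p, f (ofComplex (((z : ℂ) + b) / p))) / p

/-- `f ∈ S_k(Γ_0(N))` is a newform: `a_1 = 1`, and `f` is an eigenfunction of the Hecke operators
`T_p` (`p ∤ N`), `U_p` (`p ∣ N`) and of the Fricke involution `z ↦ -1/(Nz)`. -/
structure IsNewform (N : ℕ) (k : ℤ) (f : CuspForm (Gamma0 N : Subgroup (GL (Fin 2) ℝ)) k) :
    Prop where
  coeff_one : (qExpansion 1 f).coeff 1 = 1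
  hecke : ∀ p : Nat.Primes, ∃ a : ℂ, ∀ z : ℍ, heckeT N k p f z = a * f z
  fricke : ∃ w : ℂ, ∀ z : ℍ, f (ofComplex (-1 / ((N : ℂ) * z))) = w * (z : ℂ) ^ k * f z

/-- The Hecke eigenvalue `a_n n^(-(k-1)/2)` in the analytic normalisation, where
`f = ∑ a_n e(nz)`. -/
noncomputable def lam (N : ℕ) (k : ℤ) (f : CuspForm (Gamma0 N : Subgroup (GL (Fin 2) ℝ)) k)
    (n : ℕ) : ℂ :=
  (qExpansion 1 f).coeff n * (n : ℂ) ^ (-(((k : ℂ) - 1) / 2))

/-- `L` is the `L`-function `L(f ⊗ ψ, s)` in the analytic normalisation: an entire function which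
for `Re s > 3/2` is the Euler product
`∏_p (1 - lam_p ψ(p) p^(-s) + [p ∤ N] ψ(p)² p^(-2s))⁻¹`. -/
def IsTwistedLFunction (N : ℕ) (k : ℤ) (f : CuspForm (Gamma0 N : Subgroup (GL (Fin 2) ℝ)) k)
    {m : ℕ} (ψ : DirichletCharacter ℂ m) (L : ℂ → ℂ) : Prop :=
  Differentiable ℂ L ∧ ∀ s : ℂ, 3 / 2 < s.re → HasProd (fun p : Nat.Primes =>
    (1 - lam N k f p * ψ p * (p : ℂ) ^ (-s) +
      (if (p : ℕ) ∣ N then 0 else 1) * (ψ p) ^ 2 * (p : ℂ) ^ (-2 * s))⁻¹) (L s)

/-- Primitive quadratic Dirichlet characters: the characters attached to quadratic fields. -/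
structure QuadraticCharacter where
  /-- the conductor -/
  modulus : ℕ
  modulus_pos : 0 < modulus
  /-- the character -/
  χ : DirichletCharacter ℂ modulus
  primitive : χ.IsPrimitive
  sq_eq_one : χ ^ 2 = 1
  ne_one : χ ≠ 1

end Pool.Agent.W97.TW
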