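import Mathlib

/-!
Euler product of the twisted Dirichlet series of a Hecke eigenform (with level).
Adapted from `Pool.Agent.W634.S384.Euler`.
-/

set_option autoImplicit false

open Filter Topology

namespace Pool.Agent.W97.TW

theorem natCast_pow_cpow (n e : ℕ) (s : ℂ) : ((n : ℂ) ^ e) ^ s = ((n : ℂ) ^ s) ^ e := by
  induction e with
  | zero => simp
  | succ e ih =>
    rw [pow_succ, pow_succ, ← ih, ← Nat.cast_pow, Complex.natCast_mul_natCast_cpow]

section

variable (a ε : Nat.Primes → ℂ) (l : ℕ → ℂ) (h0 : l 0 = 0) (h1 : l 1 = 1)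
    (hrec : ∀ (p : Nat.Primes) (m : ℕ), 0 < m →
      l (p * m) = a p * l m - ε p * (if (p : ℕ) ∣ m then l (m / p) else 0))

include hrec in
theorem rec_two (p : Nat.Primes) (e m : ℕ) (hm : 0 < m) :
    l ((p : ℕ) ^ (e + 2) * m) = a p * l ((p : ℕ) ^ (e + 1) * m) - ε p * l ((p : ℕ) ^ e * m) := by
  have hp : 0 < (p : ℕ) := p.2.pos
  have h := hrec p ((p : ℕ) ^ (e + 1) * m) (by positivity)
  have e1 : (p : ℕ) * ((p : ℕ) ^ (e + 1) * m) = (p : ℕ) ^ (e + 2) * m := by ring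
  have e2 : (p : ℕ) ∣ (p : ℕ) ^ (e + 1) * m := by
    refine Dvd.dvd.mul_right ?_ _
    exact dvd_pow_self _ (by omega)
  have e3 : ((p : ℕ) ^ (e + 1) * m) / (p : ℕ) = (p : ℕ) ^ e * m := by
    rw [pow_succ]
    rw [show (p : ℕ) ^ e * (p : ℕ) * m = (p : ℕ) * ((p : ℕ) ^ e * m) by ring]
    exact Nat.mul_div_cancel_left _ hp
  rw [e1, if_pos e2, e3] at h
  exact h

include h1 hrec in
theorem l_prime (p : Nat.Primes) : l p = a p := by
  have h := hrec p 1 one_pos
  rw [mul_one, h1, mul_one, if_neg, mul_zero, sub_zero] at h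
  · exact h
  · intro hd
    exact p.2.one_lt.ne' (Nat.dvd_one.mp hd)

include h1 hrec in
theorem l_pow_mul (p : Nat.Primes) (m : ℕ) (hm : 0 < m) (hpm : ¬ (p : ℕ) ∣ m) (e : ℕ) :
    l ((p : ℕ) ^ e * m) = l ((p : ℕ) ^ e) * l m := by
  induction e using Nat.strong_induction_on with
  | _ e ih =>
    match e, ih with
    | 0, _ => simp [h1]
    | 1, _ =>
      have h := hrec p m hm
      rw [if_neg hpm, mul_zero, sub_zero] at h
      rw [pow_one, h, l_prime a ε l h1 hrec p]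
    | (e + 2), ih =>
      have h := rec_two a ε l hrec p e m hm
      have h' := rec_two a ε l hrec p e 1 one_pos
      simp only [mul_one] at h'
      rw [h, h', ih (e + 1) (by omega), ih e (by omega)]
      ring

include h0 h1 hrec in
theorem l_mul_coprime (m : ℕ) : ∀ n : ℕ, Nat.Coprime m n → l (m * n) = l m * l n := by
  induction m using Nat.recOnPosPrimePosCoprime with
  | zero =>
    intro n hn
    simp [h0]
  | one => intro n _; simp [h1]
  | prime_pow p e hp he =>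
    intro n hn
    have hpn : ¬ p ∣ n := by
      intro hd
      have : p ∣ Nat.gcd (p ^ e) n := Nat.dvd_gcd (dvd_pow_self _ he.ne') hd
      rw [hn] at this
      exact hp.one_lt.ne' (Nat.dvd_one.mp this)
    have hn0 : 0 < n := by
      rcases Nat.eq_zero_or_pos n with h | h
      · exfalso; apply hpn; rw [h]; exact dvd_zero _
      · exact h
    exact l_pow_mul a ε l h1 hrec ⟨p, hp⟩ n hn0 hpn e
  | coprime x y hx hy hxy ihx ihy =>
    intro n hn
    have h1' : Nat.Coprime x n := Nat.Coprime.coprime_mul_right hn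
    have h2' : Nat.Coprime y n := Nat.Coprime.coprime_mul_left hn
    rw [mul_assoc, ihx (y * n) (Nat.Coprime.mul_right hxy h1'), ihy n h2', ihx y hxy]
    ring

end

theorem euler_product (a ε : Nat.Primes → ℂ) (l : ℕ → ℂ) (h0 : l 0 = 0) (h1 : l 1 = 1)
    (hrec : ∀ (p : Nat.Primes) (m : ℕ), 0 < m →
      l (p * m) = a p * l m - ε p * (if (p : ℕ) ∣ m then l (m / p) else 0))
    (C : ℝ) (hC : ∀ n : ℕ, ‖l n‖ ≤ C * Real.sqrt n) {q : ℕ} (χ : DirichletCharacter ℂ q) (s : ℂ)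
    (hs : 3 / 2 < s.re) :
    Summable (fun n : ℕ => ‖l n * χ n * (n : ℂ) ^ (-s)‖) ∧
    HasProd (fun p : Nat.Primes =>
      (1 - a p * χ p * (p : ℂ) ^ (-s) + ε p * (χ p) ^ 2 * (p : ℂ) ^ (-2 * s))⁻¹)
      (∑' n : ℕ, l n * χ n * (n : ℂ) ^ (-s)) := by
  have hsum : Summable (fun n : ℕ => ‖l n * χ n * (n : ℂ) ^ (-s)‖) := by
    have hs2 : Summable (fun n : ℕ => C * (n : ℝ) ^ (1 / 2 - s.re)) :=
      (Real.summable_nat_rpow.mpr (by linarith)).mul_left C
    refine Summable.of_nonneg_of_le (fun n => norm_nonneg _) (fun n => ?_) hs2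
    rcases Nat.eq_zero_or_pos n with hn | hn
    · subst hn
      rw [h0]
      simp only [zero_mul, norm_zero]
      have : (0 : ℝ) ≤ C := by
        have := (norm_nonneg _).trans (hC 1)
        simpa using this
      positivity
    · have hnpos : (0 : ℝ) < n := by exact_mod_cast hn
      rw [norm_mul, norm_mul]
      have h2 : ‖χ n‖ ≤ 1 := DirichletCharacter.norm_le_one χ _
      have h3 : ‖(n : ℂ) ^ (-s)‖ = (n : ℝ) ^ (-s.re) := by
        rw [← Complex.ofReal_natCast, Complex.norm_cpow_eq_rpow_re_of_pos hnpos]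
        simp
      rw [h3]
      have hCn : 0 ≤ C * Real.sqrt n := (norm_nonneg _).trans (hC n)
      calc ‖l n‖ * ‖χ n‖ * (n : ℝ) ^ (-s.re) ≤ (C * Real.sqrt n) * 1 * (n : ℝ) ^ (-s.re) := by
            gcongr
            exact hC n
        _ = C * (n : ℝ) ^ (1 / 2 - s.re) := by
            rw [mul_one, Real.sqrt_eq_rpow, mul_assoc, ← Real.rpow_add hnpos]
            ring_nf
  refine ⟨hsum, ?_⟩
  set f : ℕ → ℂ := fun n => l n * χ n * (n : ℂ) ^ (-s) with hf
  have hf1 : f 1 = 1 := by simp [hf, h1]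
  have hf0 : f 0 = 0 := by simp [hf, h0]
  have hmul : ∀ {m n : ℕ}, Nat.Coprime m n → f (m * n) = f m * f n := by
    intro m n hmn
    simp only [hf]
    rw [l_mul_coprime a ε l h0 h1 hrec m n hmn]
    rw [Nat.cast_mul, map_mul, Nat.cast_mul, Complex.natCast_mul_natCast_cpow]
    ring
  have hprod := EulerProduct.eulerProduct_hasProd hf1 hmul hsum hf0
  have hterm : ∀ p : Nat.Primes, ∑' e : ℕ, f ((p : ℕ) ^ e) =
      (1 - a p * χ p * (p : ℂ) ^ (-s) + ε p * (χ p) ^ 2 * (p : ℂ) ^ (-2 * s))⁻¹ := by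
    intro p
    have hp1 : 1 < (p : ℕ) := p.2.one_lt
    have hsp : Summable (fun e : ℕ => f ((p : ℕ) ^ e)) :=
      (Summable.of_norm hsum).comp_injective (Nat.pow_right_injective hp1)
    set X : ℂ := χ p * (p : ℂ) ^ (-s) with hX
    have hpow : ∀ e : ℕ, f ((p : ℕ) ^ e) = l ((p : ℕ) ^ e) * X ^ e := by
      intro e
      simp only [hf]
      rw [Nat.cast_pow, map_pow, Nat.cast_pow, mul_assoc, hX, mul_pow]
      rw [natCast_pow_cpow]
    have hX2 : (χ p) ^ 2 * (p : ℂ) ^ (-2 * s) = X ^ 2 := by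
      rw [hX, mul_pow, ← Complex.cpow_nat_mul]
      congr 2
      push_cast; ring
    have hr : ∀ e : ℕ, f ((p : ℕ) ^ (e + 2)) =
        a p * X * f ((p : ℕ) ^ (e + 1)) - ε p * X ^ 2 * f ((p : ℕ) ^ e) := by
      intro e
      have h' := rec_two a ε l hrec p e 1 one_pos
      simp only [mul_one] at h'
      rw [hpow, hpow, hpow, h']
      ring
    set S : ℂ := ∑' e : ℕ, f ((p : ℕ) ^ e) with hS
    have hs1 : S = 1 + ∑' e : ℕ, f ((p : ℕ) ^ (e + 1)) := by
      rw [hS, hsp.tsum_eq_zero_add]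
      simp [hf1]
    have hsp1 : Summable (fun e : ℕ => f ((p : ℕ) ^ (e + 1))) :=
      (summable_nat_add_iff 1).mpr hsp
    have hs2 : S = 1 + a p * X + ∑' e : ℕ, f ((p : ℕ) ^ (e + 2)) := by
      rw [hs1, hsp1.tsum_eq_zero_add]
      have : f ((p : ℕ) ^ (0 + 1)) = a p * X := by
        rw [hpow]
        simp [l_prime a ε l h1 hrec p]
      rw [this]
      ring_nf
    have hs3 : ∑' e : ℕ, f ((p : ℕ) ^ (e + 2)) =
        a p * X * ∑' e : ℕ, f ((p : ℕ) ^ (e + 1)) - ε p * X ^ 2 * S := by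
      rw [hS, ← tsum_mul_left, ← tsum_mul_left, ← (hsp1.mul_left _).tsum_sub (hsp.mul_left _)]
      exact tsum_congr hr
    have hs4 : ∑' e : ℕ, f ((p : ℕ) ^ (e + 1)) = S - 1 := by rw [hs1]; ring
    have hfin : S * (1 - a p * X + ε p * X ^ 2) = 1 := by
      rw [hs3, hs4] at hs2
      linear_combination hs2
    have hne : (1 - a p * X + ε p * X ^ 2) ≠ 0 := right_ne_zero_of_mul_eq_one hfin
    rw [mul_assoc (ε p), hX2]
    rw [show 1 - a p * χ p * (p : ℂ) ^ (-s) + ε p * X ^ 2 = 1 - a p * X + ε p * X ^ 2 by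
      rw [hX]; ring]
    exact eq_inv_of_mul_eq_one_left hfin
  have hfun : (fun p : Nat.Primes => ∑' e : ℕ, f ((p : ℕ) ^ e)) = (fun p : Nat.Primes =>
      (1 - a p * χ p * (p : ℂ) ^ (-s) + ε p * (χ p) ^ 2 * (p : ℂ) ^ (-2 * s))⁻¹) := funext hterm
  rw [hfun] at hprod
  exact hprod

end Pool.Agent.W97.TW
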