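import Pool.Agent.W97.TW.Twist
import Pool.Agent.W97.TW.Euler

/-!
The `L`-functions of the twists.
-/

set_option autoImplicit false

open UpperHalfPlane MatrixGroups CongruenceSubgroup Filter Topology

namespace Pool.Agent.W97.TW

/-- the Gauss sum of a Dirichlet character -/
noncomputable def tau {m : ℕ} [NeZero m] (χ : DirichletCharacter ℂ m) : ℂ :=
  gaussSum χ (ZMod.stdAddChar (N := m))

lemma sum_char {m : ℕ} [NeZero m] (χ : DirichletCharacter ℂ m) (hχ : χ.IsPrimitive)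
    (hsq : χ ^ 2 = 1) (n : ℕ) :
    ∑ a : ZMod m, χ a * Complex.exp (2 * Real.pi * Complex.I * n * (((a.val : ℤ) : ℂ) / m)) =
      χ n * tau χ := by
  have hinv : χ⁻¹ = χ := by
    rw [inv_eq_iff_mul_eq_one, ← sq, hsq]
  have h1 := gaussSum_mulShift_of_isPrimitive (ZMod.stdAddChar (N := m)) hχ (n : ZMod m)
  rw [hinv] at h1
  change _ = χ n * gaussSum χ (ZMod.stdAddChar (N := m))
  rw [← h1]
  unfold gaussSum
  refine Finset.sum_congr rfl fun a _ => ?_
  congr 1
  rw [AddChar.mulShift_apply]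
  have h2 : (n : ZMod m) * a = ((n * a.val : ℤ) : ZMod m) := by
    push_cast
    rw [ZMod.natCast_zmod_val]
  rw [h2, ZMod.stdAddChar_coe]
  congr 1
  push_cast
  ring

lemma tau_ne_zero {m : ℕ} [NeZero m] (χ : DirichletCharacter ℂ m) (hχ : χ.IsPrimitive) :
    tau χ ≠ 0 := by
  intro h
  have h1 : ZMod.dft (fun a : ZMod m => χ a) = 0 := by
    funext k
    have := DirichletCharacter.IsPrimitive.fourierTransform_eq_inv_mul_gaussSum hχ k
    rw [this]
    change χ⁻¹ (-k) * tau χ = 0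
    rw [h, mul_zero]
  have h2 : (fun a : ZMod m => χ a) = 0 := by
    have := congrArg ZMod.dft.symm h1
    simpa using this
  have h3 := congrFun h2 1
  simp at h3

variable {N : ℕ} {k : ℤ} (f : CuspForm (Gamma0 N : Subgroup (GL (Fin 2) ℝ)) k)

/-- Fourier coefficients -/
noncomputable def A (n : ℕ) : ℂ := (qExpansion 1 f).coeff n

theorem one_mem0 : (1 : ℝ) ∈ (Gamma0 N : Subgroup (GL (Fin 2) ℝ)).strictPeriods := by
  rw [strictPeriods_Gamma0]
  exact AddSubgroup.mem_zmultiples 1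

lemma A_zero [NeZero N] : A f 0 = 0 :=
  CuspFormClass.qExpansion_coeff_zero (Γ := (Gamma0 N : Subgroup (GL (Fin 2) ℝ))) (k := k) f one_pos
    one_mem0

lemma hasSum_f [NeZero N] {w : ℂ} (hw : 0 < w.im) :
    HasSum (fun n : ℕ => A f n * Complex.exp (2 * Real.pi * Complex.I * n * w)) (f (ofComplex w)) := by
  have h := ModularForm.hasSum_qExpansion (Γ := (Gamma0 N : Subgroup (GL (Fin 2) ℝ))) (k := k) f
    one_pos one_mem0 (ofComplex w)
  convert h using 2 with n
  change _ = A f n * _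
  congr 1
  rw [ofComplex_apply_of_im_pos hw]
  unfold Function.Periodic.qParam
  rw [← Complex.exp_nat_mul]
  congr 1
  push_cast
  ring

lemma A_bound [NeZero N] : ∃ C : ℝ, ∀ n : ℕ, 1 ≤ n → ‖A f n‖ ≤ C * (n : ℝ) ^ ((k : ℝ) / 2) := by
  have h := CuspFormClass.qExpansion_isBigO (k := k) (Γ := (Gamma0 N : Subgroup (GL (Fin 2) ℝ))) f
  rw [strictWidthInfty_Gamma0] at h
  obtain ⟨C, hC⟩ := h.bound
  obtain ⟨M, hM⟩ := eventually_atTop.1 hC
  set S : ℝ := ∑ m ∈ Finset.range M, ‖(qExpansion 1 f).coeff m‖ / (m : ℝ) ^ ((k : ℝ) / 2) with hS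
  have hS0 : 0 ≤ S := Finset.sum_nonneg fun m _ => by positivity
  refine ⟨|C| + S, ?_⟩
  intro m hm
  have hm0 : (0 : ℝ) < m := by exact_mod_cast hm
  have hp : 0 < (m : ℝ) ^ ((k : ℝ) / 2) := Real.rpow_pos_of_pos hm0 _
  rcases lt_or_ge m M with hlt | hge
  · have h1 : ‖(qExpansion 1 f).coeff m‖ / (m : ℝ) ^ ((k : ℝ) / 2) ≤ S :=
      Finset.single_le_sum (f := fun m : ℕ => ‖(qExpansion 1 f).coeff m‖ / (m : ℝ) ^ ((k : ℝ) / 2))
        (fun i _ => by positivity) (Finset.mem_range.2 hlt)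
    rw [div_le_iff₀ hp] at h1
    refine h1.trans ?_
    gcongr
    have := abs_nonneg C
    linarith
  · have h1 := hM m hge
    rw [Real.norm_eq_abs, abs_of_pos hp] at h1
    refine h1.trans ?_
    gcongr
    have := le_abs_self C
    linarith

lemma hasSum_TS [NeZero N] {m : ℕ} [NeZero m] (ψ : DirichletCharacter ℂ m) (hψ : ψ.IsPrimitive)
    (hsq : ψ ^ 2 = 1) {y : ℝ} (hy : 0 < y) :
    HasSum (fun n : ℕ => tau ψ * (A f n * ψ n * (Real.exp (-(2 * Real.pi * n) * y) : ℂ)))
      (TS f ψ (Complex.I * y)) := by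
  unfold TS
  have him : 0 < (Complex.I * (y : ℂ)).im := by simpa using hy
  have h1 : HasSum (fun n : ℕ => ∑ a : ZMod m, ψ a * (A f n *
      Complex.exp (2 * Real.pi * Complex.I * n * (Complex.I * y + ((a.val : ℤ) : ℂ) / m))))
      (∑ a : ZMod m, ψ a * f (ofComplex (Complex.I * y + ((a.val : ℤ) : ℂ) / m))) :=
    hasSum_sum fun a _ => (hasSum_f f (im_add_div him _ m)).mul_left _
  refine h1.congr_fun fun n => ?_
  have h2 : ∀ a : ZMod m, ψ a * (A f n *
      Complex.exp (2 * Real.pi * Complex.I * n * (Complex.I * y + ((a.val : ℤ) : ℂ) / m))) =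
      A f n * (Real.exp (-(2 * Real.pi * n) * y) : ℂ) *
        (ψ a * Complex.exp (2 * Real.pi * Complex.I * n * (((a.val : ℤ) : ℂ) / m))) := by
    intro a
    have h3 : Complex.exp (2 * Real.pi * Complex.I * n * (Complex.I * y + ((a.val : ℤ) : ℂ) / m)) =
        (Real.exp (-(2 * Real.pi * n) * y) : ℂ) *
        Complex.exp (2 * Real.pi * Complex.I * n * (((a.val : ℤ) : ℂ) / m)) := by
      rw [Complex.ofReal_exp, ← Complex.exp_add]
      congr 1
      push_cast
      have : Complex.I ^ 2 = -1 := Complex.I_sq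
      linear_combination (2 * Real.pi * n * y : ℂ) * this
    rw [h3]
    ring
  simp_rw [h2]
  rw [← Finset.mul_sum, sum_char ψ hψ hsq]
  ring

lemma continuousOn_TS [NeZero N] {m : ℕ} [NeZero m] (ψ : DirichletCharacter ℂ m) (q : ℝ)
    (hq : 0 < q) :
    ContinuousOn (fun t : ℝ => TS f ψ (Complex.I * ((t / q : ℝ) : ℂ))) (Set.Ioi 0) := by
  unfold TS
  refine continuousOn_finsetSum _ fun a _ => ContinuousOn.mul continuousOn_const ?_
  have hcf : Continuous f := (CuspFormClass.holo f).continuous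
  intro t ht
  have ht' : (0 : ℝ) < t := ht
  have him : 0 < (Complex.I * ((t / q : ℝ) : ℂ) + ((a.val : ℤ) : ℂ) / m).im := by
    apply im_add_div
    simp only [Complex.I_mul_im, Complex.ofReal_re]
    positivity
  refine ContinuousAt.continuousWithinAt ?_
  have h1 : ContinuousAt (fun w : ℂ => f (ofComplex w))
      (Complex.I * ((t / q : ℝ) : ℂ) + ((a.val : ℤ) : ℂ) / m) :=
    hcf.continuousAt.comp (contMDiffAt_ofComplex (n := 0) him).continuousAt
  exact ContinuousAt.comp (f := fun t : ℝ => Complex.I * ((t / q : ℝ) : ℂ) + ((a.val : ℤ) : ℂ) / m)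
    h1 (by fun_prop)

end Pool.Agent.W97.TW
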