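import Mathlib

/-!
Hecke's converse direction: a Dirichlet series whose theta-like series satisfies a functional
equation continues to an entire function with functional equation.
-/

set_option autoImplicit false

open MeasureTheory Filter Topology Set Asymptotics

namespace Pool.Agent.W97.TW

variable {c : ℕ → ℂ} {C β q : ℝ} {Φ : ℝ → ℂ}

lemma phi_bound (hc0 : c 0 = 0) (hc : ∀ n : ℕ, 1 ≤ n → ‖c n‖ ≤ C * (n : ℝ) ^ β) (hq : 0 < q)
    (hΦ : ∀ t : ℝ, 0 < t → HasSum (fun n : ℕ => c n * (Real.exp (-(2 * Real.pi * n / q) * t) : ℂ))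
      (Φ t)) :
    ∃ K : ℝ, ∀ t : ℝ, 1 ≤ t → ‖Φ t‖ ≤ K * Real.exp (-(Real.pi / q) * t) := by
  obtain ⟨m, hm⟩ := exists_nat_ge β
  have hC : 0 ≤ C := by
    have := (norm_nonneg _).trans (hc 1 le_rfl)
    simpa using this
  have hpq : 0 < Real.pi / q := div_pos Real.pi_pos hq
  have hs : Summable (fun n : ℕ => C * ((n : ℝ) ^ m * Real.exp (-(Real.pi / q) * n))) :=
    (Real.summable_pow_mul_exp_neg_nat_mul m hpq).mul_left C
  refine ⟨∑' n : ℕ, C * ((n : ℝ) ^ m * Real.exp (-(Real.pi / q) * n)), fun t ht => ?_⟩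
  have hterm : ∀ n : ℕ, ‖c n * (Real.exp (-(2 * Real.pi * n / q) * t) : ℂ)‖ ≤
      C * ((n : ℝ) ^ m * Real.exp (-(Real.pi / q) * n)) * Real.exp (-(Real.pi / q) * t) := by
    intro n
    rcases Nat.eq_zero_or_pos n with rfl | hn
    · rw [hc0, zero_mul, norm_zero]; positivity
    · have hn1 : (1 : ℝ) ≤ n := by exact_mod_cast hn
      rw [norm_mul, Complex.norm_real, Real.norm_of_nonneg (Real.exp_pos _).le]
      have h1 : ‖c n‖ ≤ C * (n : ℝ) ^ m := by
        refine (hc n hn).trans ?_
        have := Real.rpow_le_rpow_of_exponent_le hn1 hm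
        rw [Real.rpow_natCast] at this
        exact mul_le_mul_of_nonneg_left this hC
      have h2 : Real.exp (-(2 * Real.pi * n / q) * t) ≤
          Real.exp (-(Real.pi / q) * n) * Real.exp (-(Real.pi / q) * t) := by
        rw [← Real.exp_add]
        apply Real.exp_le_exp.2
        have h3 : (n : ℝ) + t ≤ 2 * (n * t) := by nlinarith
        have h4 : (2 * Real.pi * n / q) * t = (Real.pi / q) * (2 * (n * t)) := by ring
        have h5 : (Real.pi / q) * (n + t) ≤ (Real.pi / q) * (2 * (n * t)) :=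
          mul_le_mul_of_nonneg_left h3 hpq.le
        linarith
      calc ‖c n‖ * Real.exp (-(2 * Real.pi * n / q) * t)
          ≤ (C * (n : ℝ) ^ m) * (Real.exp (-(Real.pi / q) * n) * Real.exp (-(Real.pi / q) * t)) := by
            gcongr
        _ = _ := by ring
  rw [← (hΦ t (by linarith)).tsum_eq, ← tsum_mul_right]
  exact tsum_of_norm_bounded (hs.mul_right _).hasSum hterm

theorem core (hc0 : c 0 = 0) (hc : ∀ n : ℕ, 1 ≤ n → ‖c n‖ ≤ C * (n : ℝ) ^ β) (hq : 0 < q)
    (hΦ : ∀ t : ℝ, 0 < t → HasSum (fun n : ℕ => c n * (Real.exp (-(2 * Real.pi * n / q) * t) : ℂ))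
      (Φ t)) (hcont : ContinuousOn Φ (Set.Ioi 0)) (k : ℝ) (hk : 0 < k) (ε : ℂ) (hε : ε ≠ 0)
    (hfe : ∀ t : ℝ, 0 < t → Φ (1 / t) = ε * ((t ^ k : ℝ) : ℂ) * Φ t) :
    ∃ H : ℂ → ℂ, Differentiable ℂ H ∧ (∀ s : ℂ, H (k - s) = ε * H s) ∧
      ∀ s : ℂ, 0 < s.re → β + 1 < s.re →
        H s = ((q / (2 * Real.pi) : ℝ) : ℂ) ^ s * Complex.Gamma s *
          ∑' n : ℕ, c n * (n : ℂ) ^ (-s) := by
  obtain ⟨K, hK⟩ := phi_bound hc0 hc hq hΦ
  have hpq : 0 < Real.pi / q := div_pos Real.pi_pos hq
  have htop : ∀ r : ℝ, Φ =O[atTop] (fun t : ℝ => t ^ r) := by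
    intro r
    have h1 : Φ =O[atTop] (fun t : ℝ => Real.exp (-(Real.pi / q) * t)) := by
      refine IsBigO.of_bound K ?_
      filter_upwards [eventually_ge_atTop 1] with t ht
      rw [Real.norm_of_nonneg (Real.exp_pos _).le]
      exact hK t ht
    exact h1.trans (isLittleO_exp_neg_mul_rpow_atTop hpq r).isBigO
  let P : WeakFEPair ℂ :=
    { f := Φ
      g := Φ
      k := k
      ε := ε
      f₀ := 0
      g₀ := 0
      hf_int := hcont.locallyIntegrableOn measurableSet_Ioi
      hg_int := hcont.locallyIntegrableOn measurableSet_Ioi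
      hk := hk
      hε := hε
      h_feq := fun x hx => by
        rw [smul_eq_mul]
        exact hfe x hx
      hf_top := fun r => by simpa using htop r
      hg_top := fun r => by simpa using htop r }
  have hP : IsStrongFEPair P := ⟨rfl, rfl⟩
  refine ⟨P.Λ, hP.differentiable_Λ, ?_, ?_⟩
  · intro s
    have h1 := P.functional_equation s
    have h2 : P.symm.Λ = P.Λ := by
      rw [hP.Λ_eq, hP.symm.Λ_eq]
      rfl
    rw [h2] at h1
    exact h1
  · intro s hs hs2
    rw [hP.Λ_eq]
    have h1 := hasSum_mellin (a := c) (p := fun n : ℕ => 2 * Real.pi * n / q) (F := Φ) (s := s)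
      (fun n => by
        rcases Nat.eq_zero_or_pos n with rfl | hn
        · exact Or.inl hc0
        · right
          have : (0 : ℝ) < n := by exact_mod_cast hn
          positivity) hs (fun t ht => hΦ t ht) (by
        refine Summable.of_nonneg_of_le (fun n => by positivity) (fun n => ?_)
          (f := fun n : ℕ => C * (q / (2 * Real.pi)) ^ s.re * (n : ℝ) ^ (β - s.re)) ?_
        · rcases Nat.eq_zero_or_pos n with rfl | hn
          · rw [hc0, norm_zero, zero_div]
            have hC : 0 ≤ C := by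
              have := (norm_nonneg _).trans (hc 1 le_rfl)
              simpa using this
            positivity
          · have hn0 : (0 : ℝ) < n := by exact_mod_cast hn
            have e1 : (2 * Real.pi * n / q) ^ s.re = (n : ℝ) ^ s.re / (q / (2 * Real.pi)) ^ s.re := by
              rw [← Real.div_rpow hn0.le (by positivity)]
              congr 1
              field_simp
            rw [e1, div_div_eq_mul_div, div_le_iff₀ (by positivity)]
            have h2 := hc n hn
            calc ‖c n‖ * (q / (2 * Real.pi)) ^ s.re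
                ≤ (C * (n : ℝ) ^ β) * (q / (2 * Real.pi)) ^ s.re := by gcongr
              _ = C * (q / (2 * Real.pi)) ^ s.re * ((n : ℝ) ^ (β - s.re) * (n : ℝ) ^ s.re) := by
                rw [← Real.rpow_add hn0, sub_add_cancel]
                ring
              _ = _ := by ring
        · exact (Real.summable_nat_rpow.mpr (by linarith)).mul_left _)
    change mellin Φ s = _
    rw [← h1.tsum_eq, ← tsum_mul_left]
    refine tsum_congr fun n => ?_
    rcases Nat.eq_zero_or_pos n with rfl | hn
    · rw [hc0]; simp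
    · have hn0 : (0 : ℝ) < n := by exact_mod_cast hn
      have e1 : ((2 * Real.pi * n / q : ℝ) : ℂ) ^ s = (n : ℂ) ^ s *
          (((q / (2 * Real.pi) : ℝ) : ℂ) ^ s)⁻¹ := by
        rw [← Complex.inv_cpow _ _ (by
          rw [Complex.arg_ofReal_of_nonneg (by positivity)]
          exact Real.pi_pos.ne), ← Complex.ofReal_inv, ← Complex.ofReal_natCast,
          ← Complex.mul_cpow_ofReal_nonneg hn0.le (by positivity)]
        congr 1
        push_cast
        field_simp
      rw [e1, Complex.cpow_neg]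
      have hn1 : (n : ℂ) ^ s ≠ 0 := by
        rw [Complex.cpow_def_of_ne_zero (by exact_mod_cast hn0.ne')]; exact Complex.exp_ne_zero _
      have hq1 : ((q / (2 * Real.pi) : ℝ) : ℂ) ^ s ≠ 0 := by
        rw [Complex.cpow_def_of_ne_zero]
        · exact Complex.exp_ne_zero _
        · have : (q / (2 * Real.pi) : ℝ) ≠ 0 := by positivity
          exact_mod_cast this
      generalize (n : ℂ) ^ s = X at hn1 ⊢
      generalize ((q / (2 * Real.pi) : ℝ) : ℂ) ^ s = Y at hq1 ⊢
      field_simp

end Pool.Agent.W97.TW
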