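import Pool.Agent.W97.TW.Defs
import Pool.Agent.W97.TW.Core

/-!
Functional equation of the twists of a form on `Γ_0(N)` by a primitive real character of conductor
prime to `N` or divisible by `N`.
-/

set_option autoImplicit false

open UpperHalfPlane MatrixGroups CongruenceSubgroup Filter Topology

namespace Pool.Agent.W97.TW

variable {N : ℕ} {k : ℤ} (f : CuspForm (Gamma0 N : Subgroup (GL (Fin 2) ℝ)) k)

lemma f_gamma {a b c d : ℤ} (hdet : a * d - b * c = 1) (hc : (N : ℤ) ∣ c) {w : ℂ} (hw : 0 < w.im) :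
    f (ofComplex ((a * w + b) / (c * w + d))) = ((c : ℂ) * w + d) ^ k * f (ofComplex w) := by
  let γ : SL(2, ℤ) := ⟨!![a, b; c, d], by rw [Matrix.det_fin_two_of]; exact hdet⟩
  have hγ : γ ∈ Gamma0 N := by
    rw [Gamma0_mem]
    change ((c : ℤ) : ZMod N) = 0
    rwa [ZMod.intCast_zmod_eq_zero_iff_dvd]
  let z : ℍ := ⟨w, hw⟩
  have h1 := SlashInvariantForm.slash_action_eqn_SL'' f hγ z
  have hz : ofComplex w = z := ofComplex_apply_of_im_pos hw
  have h2 : ((γ • z : ℍ) : ℂ) = (a * w + b) / (c * w + d) := by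
    rw [coe_specialLinearGroup_apply]
    have e00 : γ 0 0 = a := rfl
    have e01 : γ 0 1 = b := rfl
    have e10 : γ 1 0 = c := rfl
    have e11 : γ 1 1 = d := rfl
    have ez : (z : ℂ) = w := rfl
    rw [e00, e01, e10, e11, ez]
    simp only [algebraMap_int_eq, eq_intCast, Complex.ofReal_intCast]
  have h3 : ofComplex ((a * w + b) / (c * w + d)) = γ • z := by
    rw [← h2]
    exact ofComplex_apply _
  have h4 : denom (γ : GL (Fin 2) ℝ) z = c * w + d := by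
    rw [ModularGroup.denom_apply]
    rfl
  rw [h3, h1, hz, h4]

lemma im_add_div {w : ℂ} (hw : 0 < w.im) (u : ℤ) (m : ℕ) : 0 < (w + (u : ℂ) / m).im := by
  have : (u : ℂ) / m = (((u : ℝ) / m : ℝ) : ℂ) := by push_cast; rfl
  rw [this, Complex.add_im, Complex.ofReal_im, add_zero]
  exact hw

lemma ne_zero_of_im {w : ℂ} (hw : 0 < w.im) : w ≠ 0 := fun h => by simp [h] at hw

/-- conductor prime to the level -/
lemma cusp_one {W : ℂ} (hW : ∀ z : ℍ, f (ofComplex (-1 / ((N : ℂ) * z))) = W * (z : ℂ) ^ k * f z)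
    (hN : 0 < N) {m : ℕ} (hm : 0 < m) {u v g : ℤ} (hg : (N : ℤ) * u * v + 1 = g * m) {z : ℂ}
    (hz : 0 < z.im) :
    f (ofComplex (-1 / ((N : ℂ) * (m : ℂ) ^ 2 * z) + (u : ℂ) / m)) =
      W * ((m : ℂ) * z) ^ k * f (ofComplex (z + (v : ℂ) / m)) := by
  have hmC : (m : ℂ) ≠ 0 := by exact_mod_cast hm.ne'
  have hNC : (N : ℂ) ≠ 0 := by exact_mod_cast hN.ne'
  have hzC := ne_zero_of_im hz
  set w : ℂ := z + (v : ℂ) / m with hw
  have hwi : 0 < w.im := im_add_div hz v m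
  have hwC := ne_zero_of_im hwi
  have hw'i : 0 < (-1 / ((N : ℂ) * w)).im := by
    rw [neg_div, Complex.neg_im, one_div, Complex.inv_im, neg_div, neg_neg]
    have h1 : 0 < ((N : ℂ) * w).im := by
      rw [Complex.mul_im]
      simp only [Complex.natCast_re, Complex.natCast_im, zero_mul, add_zero]
      have : (0 : ℝ) < N := by exact_mod_cast hN
      positivity
    exact div_pos h1 (Complex.normSq_pos.2 (ne_zero_of_im h1))
  have hgC : (N : ℂ) * u * v + 1 = g * m := by exact_mod_cast hg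
  have h1 := f_gamma f (a := g) (b := u) (c := (N : ℤ) * v) (d := m)
    (by linarith) (dvd_mul_right _ _) hw'i
  have h2 := hW ⟨w, hwi⟩
  have h3 : ((⟨w, hwi⟩ : ℍ) : ℂ) = w := rfl
  have h4 : f (⟨w, hwi⟩ : ℍ) = f (ofComplex w) := by rw [ofComplex_apply_of_im_pos hwi]
  rw [h3, h4] at h2
  rw [h2] at h1
  have hmw : (m : ℂ) * w = m * z + v := by rw [hw]; field_simp
  have h5 : ((((N : ℤ) * v : ℤ) : ℂ) * (-1 / ((N : ℂ) * w)) + ((m : ℤ) : ℂ)) = (m : ℂ) * z / w := by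
    push_cast
    field_simp
    linear_combination hmw
  have h6 : ((g : ℂ) * (-1 / ((N : ℂ) * w)) + u) / ((m : ℂ) * z / w) =
      -1 / ((N : ℂ) * (m : ℂ) ^ 2 * z) + (u : ℂ) / m := by
    field_simp
    linear_combination (N * (u : ℂ)) * hmw + hgC
  rw [h5, h6] at h1
  rw [h1, div_zpow]
  have h7 : w ^ k ≠ 0 := zpow_ne_zero _ hwC
  field_simp

/-- conductor divisible by the level -/
lemma cusp_two {m : ℕ} (hm : 0 < m) (hNm : N ∣ m) {u v g : ℤ} (hg : u * v + 1 = g * m) {z : ℂ}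
    (hz : 0 < z.im) :
    f (ofComplex (-1 / ((m : ℂ) ^ 2 * z) + (u : ℂ) / m)) =
      ((m : ℂ) * z) ^ k * f (ofComplex (z + (v : ℂ) / m)) := by
  have hmC : (m : ℂ) ≠ 0 := by exact_mod_cast hm.ne'
  have hzC := ne_zero_of_im hz
  set w : ℂ := z + (v : ℂ) / m with hw
  have hwi : 0 < w.im := im_add_div hz v m
  have hwC := ne_zero_of_im hwi
  have hgC : (u : ℂ) * v + 1 = g * m := by exact_mod_cast hg
  have h1 := f_gamma f (a := u) (b := -g) (c := m) (d := -v)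
    (by linarith) (by exact_mod_cast hNm) hwi
  have hmw : (m : ℂ) * w = m * z + v := by rw [hw]; field_simp
  have h5 : ((((m : ℕ) : ℤ) : ℂ) * w + ((-v : ℤ) : ℂ)) = (m : ℂ) * z := by
    push_cast
    linear_combination hmw
  have h6 : ((u : ℂ) * w + ((-g : ℤ) : ℂ)) / ((m : ℂ) * z) =
      -1 / ((m : ℂ) ^ 2 * z) + (u : ℂ) / m := by
    push_cast
    field_simp
    linear_combination (u : ℂ) * hmw + hgC
  rw [h5, h6] at h1
  exact h1

/-- reindexing by `a ↦ -(c a)⁻¹` -/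
lemma reindex {m : ℕ} [NeZero m] (χ : DirichletCharacter ℂ m) (hsq : χ ^ 2 = 1) (c : ZMod m)
    (hc : IsUnit c)
    (f g : ZMod m → ℂ) (hfg : ∀ a a' : ZMod m, c * a * a' = -1 → f a = g a') :
    ∑ a : ZMod m, χ a * f a = χ (-c) * ∑ a : ZMod m, χ a * g a := by
  classical
  obtain ⟨c, rfl⟩ := hc
  rw [Finset.mul_sum]
  have h1 : ∀ (h : ZMod m → ℂ), ∑ a : ZMod m, χ a * h a = ∑ u : (ZMod m)ˣ, χ u * h u := by
    intro h
    symm
    rw [← Finset.sum_subset (Finset.subset_univ (Finset.univ.image (fun u : (ZMod m)ˣ => (u : ZMod m))))]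
    · rw [Finset.sum_image (fun u _ v _ huv => Units.ext huv)]
    · intro a _ ha
      have : ¬ IsUnit a := by
        rintro ⟨u, rfl⟩
        exact ha (Finset.mem_image_of_mem _ (Finset.mem_univ _))
      rw [MulChar.map_nonunit χ this, zero_mul]
  have h2 : ∀ a : ZMod m, χ (-c) * (χ a * g a) = χ a * (χ (-c) * g a) := fun a => by ring
  simp_rw [h2]
  rw [h1, h1]
  refine Fintype.sum_equiv (((Equiv.mulLeft c).trans (Equiv.inv (ZMod m)ˣ)).trans
    (Equiv.neg (ZMod m)ˣ)) _ _ fun u => ?_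
  simp only [Equiv.trans_apply, Equiv.inv_apply, Equiv.neg_apply, Equiv.coe_mulLeft]
  have h3 : f u = g ((-(c * u)⁻¹ : (ZMod m)ˣ) : ZMod m) := by
    apply hfg
    have : ((c * u * (c * u)⁻¹ : (ZMod m)ˣ) : ZMod m) = 1 := by simp
    push_cast at this ⊢
    rw [mul_neg, this]
  rw [h3, ← mul_assoc]
  congr 1
  rw [← map_mul]
  have h4 : ((-(c * u)⁻¹ : (ZMod m)ˣ) : ZMod m) * (-(c : ZMod m)) = ((u⁻¹ : (ZMod m)ˣ) : ZMod m) := by
    have : (((c * u)⁻¹ * c : (ZMod m)ˣ) : ZMod m) = ((u⁻¹ : (ZMod m)ˣ) : ZMod m) := by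
      congr 1
      rw [mul_inv_rev, mul_assoc, inv_mul_cancel, mul_one]
    rw [← this]
    push_cast
    ring
  rw [h4]
  have h6 : χ ((u : ZMod m)) ^ 2 = 1 := by
    have := congrArg (fun ψ : DirichletCharacter ℂ m => ψ (u : ZMod m)) hsq
    simpa [MulChar.pow_apply_coe] using this
  have h7 : χ ((u⁻¹ : (ZMod m)ˣ) : ZMod m) * χ (u : ZMod m) = 1 := by
    rw [← map_mul]; simp
  have h8 : χ (u : ZMod m) ≠ 0 := right_ne_zero_of_mul_eq_one h7
  apply mul_right_cancel₀ h8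
  rw [h7, ← sq, h6]

lemma exists_g {m : ℕ} [NeZero m] (c : ℤ) {a a' : ZMod m} (h : (c : ZMod m) * a * a' = -1) :
    ∃ g : ℤ, c * (a.val : ℤ) * (a'.val : ℤ) + 1 = g * m := by
  have h1 : (((c * (a.val : ℤ) * (a'.val : ℤ) + 1 : ℤ)) : ZMod m) = 0 := by
    push_cast
    rw [ZMod.natCast_zmod_val, ZMod.natCast_zmod_val, h]
    ring
  rw [ZMod.intCast_zmod_eq_zero_iff_dvd] at h1
  obtain ⟨g, hg⟩ := h1
  exact ⟨g, by linarith⟩

/-- the twisted sum -/
noncomputable def TS {m : ℕ} [NeZero m] (ψ : DirichletCharacter ℂ m) (z : ℂ) : ℂ :=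
  ∑ a : ZMod m, ψ a * f (ofComplex (z + ((a.val : ℤ) : ℂ) / m))

lemma TS_one {W : ℂ} (hW : ∀ z : ℍ, f (ofComplex (-1 / ((N : ℂ) * z))) = W * (z : ℂ) ^ k * f z)
    (hN : 0 < N) {m : ℕ} [NeZero m] (hNm : Nat.Coprime N m) (ψ : DirichletCharacter ℂ m)
    (hsq : ψ ^ 2 = 1) {z : ℂ} (hz : 0 < z.im) :
    TS f ψ (-1 / ((N : ℂ) * (m : ℂ) ^ 2 * z)) =
      ψ (-((N : ZMod m))) * (W * ((m : ℂ) * z) ^ k) * TS f ψ z := by
  unfold TS
  rw [mul_assoc (ψ (-((N : ZMod m)))), Finset.mul_sum]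
  have h1 : ∀ a : ZMod m, W * ((m : ℂ) * z) ^ k * (ψ a * f (ofComplex (z + ((a.val : ℤ) : ℂ) / m))) =
      ψ a * (W * ((m : ℂ) * z) ^ k * f (ofComplex (z + ((a.val : ℤ) : ℂ) / m))) := fun a => by ring
  simp_rw [h1]
  refine reindex ψ hsq (N : ZMod m) ((ZMod.isUnit_iff_coprime _ _).2 hNm) _ _ fun a a' h => ?_
  obtain ⟨g, hg⟩ := exists_g (m := m) (N : ℤ) (a := a) (a' := a') (by exact_mod_cast h)
  exact cusp_one f hW hN (NeZero.pos m) hg hz

lemma TS_two {m : ℕ} [NeZero m] (hNm : N ∣ m) (ψ : DirichletCharacter ℂ m)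
    (hsq : ψ ^ 2 = 1) {z : ℂ} (hz : 0 < z.im) :
    TS f ψ (-1 / ((m : ℂ) ^ 2 * z)) = ψ (-1) * ((m : ℂ) * z) ^ k * TS f ψ z := by
  unfold TS
  rw [mul_assoc, Finset.mul_sum]
  have h1 : ∀ a : ZMod m, ((m : ℂ) * z) ^ k * (ψ a * f (ofComplex (z + ((a.val : ℤ) : ℂ) / m))) =
      ψ a * (((m : ℂ) * z) ^ k * f (ofComplex (z + ((a.val : ℤ) : ℂ) / m))) := fun a => by ring
  simp_rw [h1]
  refine reindex ψ hsq 1 isUnit_one _ _ fun a a' h => ?_
  obtain ⟨g, hg⟩ := exists_g (m := m) 1 (a := a) (a' := a') (by exact_mod_cast h)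
  exact cusp_two f (NeZero.pos m) hNm (by simpa using hg) hz

end Pool.Agent.W97.TW
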