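import Mathlib

/-!
The primitive character of a product of two primitive real characters.
-/

set_option autoImplicit false

open DirichletCharacter

namespace Pool.Agent.W97.TW

variable {q m : ℕ} [NeZero q] [NeZero m] (χ : DirichletCharacter ℂ q) (ψ : DirichletCharacter ℂ m)

instance neZero_conductor : NeZero (mul χ ψ).conductor := by
  have : NeZero (Nat.lcm q m) := ⟨Nat.lcm_ne_zero (NeZero.ne q) (NeZero.ne m)⟩
  exact ⟨conductor_ne_zero _⟩

omit [NeZero q] [NeZero m] in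
lemma prod_apply {a : ℤ} (hq : IsCoprime a q) (hm : IsCoprime a m) :
    primitive_mul χ ψ a = χ a * ψ a := by
  have h1 : IsCoprime a ((Nat.lcm q m : ℕ) : ℤ) := by
    refine IsCoprime.of_isCoprime_of_dvd_right (IsCoprime.mul_right hq hm) ?_
    exact_mod_cast Nat.lcm_dvd_mul q m
  rw [primitive_mul, primitiveCharacter_apply_of_isCoprime _ h1, mul, MulChar.mul_apply,
    changeLevel_eq_cast_of_dvd' _ _ h1, changeLevel_eq_cast_of_dvd' _ _ h1]

lemma prod_sq (hχ : χ ^ 2 = 1) (hψ : ψ ^ 2 = 1) : (primitive_mul χ ψ) ^ 2 = 1 := by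
  have : NeZero (Nat.lcm q m) := ⟨Nat.lcm_ne_zero (NeZero.ne q) (NeZero.ne m)⟩
  apply changeLevel_injective (mul χ ψ).conductor_dvd_level
  rw [map_pow, map_one, primitive_mul, changeLevel_primitiveCharacter, mul, mul_pow, ← map_pow,
    ← map_pow, hχ, hψ, map_one, map_one, one_mul]

omit [NeZero q] [NeZero m] in
lemma conductor_dvd : (mul χ ψ).conductor ∣ Nat.lcm q m := conductor_dvd_level _

lemma dvd_lcm_conductor (hχ : χ.IsPrimitive) (hψ : ψ.IsPrimitive) :
    m ∣ Nat.lcm q (mul χ ψ).conductor := by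
  have : NeZero (Nat.lcm q m) := ⟨Nat.lcm_ne_zero (NeZero.ne q) (NeZero.ne m)⟩
  set X := changeLevel (Nat.dvd_lcm_left q m) χ with hX
  set Y := changeLevel (Nat.dvd_lcm_right q m) ψ with hY
  have h1 := conductor_mul_dvd_lcm_conductor X⁻¹ (mul χ ψ)
  have h2 : X⁻¹ * mul χ ψ = Y := by
    rw [mul, ← hX, ← hY, inv_mul_cancel_left]
  have h3 : Y.conductor = m := by
    rw [hY, conductor_changeLevel]; exact hψ
  have h4 : X⁻¹.conductor = q := by
    rw [conductor_inv, hX, conductor_changeLevel]; exact hχ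
  rw [h2, h3, h4] at h1
  exact h1

lemma coprime_conductor {N : ℕ} (hq : Nat.Coprime N q) (hm : Nat.Coprime N m) :
    Nat.Coprime N (mul χ ψ).conductor := by
  refine Nat.Coprime.of_dvd_right (conductor_dvd χ ψ) ?_
  exact Nat.Coprime.of_dvd_right (Nat.lcm_dvd_mul q m) (Nat.Coprime.mul_right hq hm)

lemma dvd_conductor {p : ℕ} (hp : p.Prime) (hq : ¬ p ∣ q) (hm : p ∣ m) (hχ : χ.IsPrimitive)
    (hψ : ψ.IsPrimitive) : p ∣ (mul χ ψ).conductor := by
  have h1 := (hm.trans (dvd_lcm_conductor χ ψ hχ hψ)).trans (Nat.lcm_dvd_mul _ _)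
  exact (hp.dvd_mul.1 h1).resolve_left hq

end Pool.Agent.W97.TW
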