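import Pool.Agent.W97.TW.HeckeForm

/-!
The multiplier of `η²` on `SL(2, ℤ)`.
-/

set_option autoImplicit false

open UpperHalfPlane MatrixGroups CongruenceSubgroup Filter Topology
open scoped ModularForm Pointwise

namespace Pool.Agent.W97.TW

/-- exponent of the multiplier of `η²` -/
def kap {R : Type*} [CommRing R] (a b c d : R) : R :=
  (1 - c * c) * (b * d + 3 * (c - 1) * d + c + 3) + c * (a + d - 3)

lemma kap3 : ∀ a b c d : ZMod 3, a * d - b * c = 1 →
    kap a (a + b) c (c + d) = kap a b c d + 1 ∧ kap a (b - a) c (d - c) = kap a b c d - 1 ∧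
    kap b (-a) d (-c) = kap a b c d - 3 ∧ kap (-b) a (-d) c = kap a b c d + 3 := by
  decide

lemma kap4 : ∀ a b c d : ZMod 4, a * d - b * c = 1 →
    kap a (a + b) c (c + d) = kap a b c d + 1 ∧ kap a (b - a) c (d - c) = kap a b c d - 1 ∧
    kap b (-a) d (-c) = kap a b c d - 3 ∧ kap (-b) a (-d) c = kap a b c d + 3 := by
  decide

lemma kap3' : ∀ a b c d : ZMod 3, a * d - b * (11 * c) = 1 →
    kap a b (11 * c) d + kap a (11 * b) c d = 0 := by
  decide

lemma kap4' : ∀ a b c d : ZMod 4, a * d - b * (11 * c) = 1 →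
    kap a b (11 * c) d + kap a (11 * b) c d = 0 := by
  decide

lemma cast_kap {R : Type*} [CommRing R] (a b c d : ℤ) :
    ((kap a b c d : ℤ) : R) = kap (a : R) (b : R) (c : R) (d : R) := by
  unfold kap; push_cast; ring

lemma dvd12 {x : ℤ} (h3 : (x : ZMod 3) = 0) (h4 : (x : ZMod 4) = 0) : (12 : ℤ) ∣ x := by
  rw [ZMod.intCast_zmod_eq_zero_iff_dvd] at h3 h4
  omega

lemma kap_T {a b c d : ℤ} (h : a * d - b * c = 1) :
    (12 : ℤ) ∣ kap a (a + b) c (c + d) - (kap a b c d + 1) := by
  apply dvd12
  · have := (kap3 a b c d (by exact_mod_cast congrArg (Int.cast : ℤ → ZMod 3) h)).1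
    push_cast [cast_kap]
    rw [this, sub_self]
  · have := (kap4 a b c d (by exact_mod_cast congrArg (Int.cast : ℤ → ZMod 4) h)).1
    push_cast [cast_kap]
    rw [this, sub_self]

lemma kap_Ti {a b c d : ℤ} (h : a * d - b * c = 1) :
    (12 : ℤ) ∣ kap a (b - a) c (d - c) - (kap a b c d - 1) := by
  apply dvd12
  · have := (kap3 a b c d (by exact_mod_cast congrArg (Int.cast : ℤ → ZMod 3) h)).2.1
    push_cast [cast_kap]
    rw [this, sub_self]
  · have := (kap4 a b c d (by exact_mod_cast congrArg (Int.cast : ℤ → ZMod 4) h)).2.1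
    push_cast [cast_kap]
    rw [this, sub_self]

lemma kap_S {a b c d : ℤ} (h : a * d - b * c = 1) :
    (12 : ℤ) ∣ kap b (-a) d (-c) - (kap a b c d - 3) := by
  apply dvd12
  · have := (kap3 a b c d (by exact_mod_cast congrArg (Int.cast : ℤ → ZMod 3) h)).2.2.1
    push_cast [cast_kap]
    rw [this, sub_self]
  · have := (kap4 a b c d (by exact_mod_cast congrArg (Int.cast : ℤ → ZMod 4) h)).2.2.1
    push_cast [cast_kap]
    rw [this, sub_self]

lemma kap_Si {a b c d : ℤ} (h : a * d - b * c = 1) :
    (12 : ℤ) ∣ kap (-b) a (-d) c - (kap a b c d + 3) := by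
  apply dvd12
  · have := (kap3 a b c d (by exact_mod_cast congrArg (Int.cast : ℤ → ZMod 3) h)).2.2.2
    push_cast [cast_kap]
    rw [this, sub_self]
  · have := (kap4 a b c d (by exact_mod_cast congrArg (Int.cast : ℤ → ZMod 4) h)).2.2.2
    push_cast [cast_kap]
    rw [this, sub_self]

lemma kap_11 {a b c d : ℤ} (h : a * d - b * (11 * c) = 1) :
    (12 : ℤ) ∣ kap a b (11 * c) d + kap a (11 * b) c d := by
  apply dvd12
  · have := (kap3' a b c d (by exact_mod_cast congrArg (Int.cast : ℤ → ZMod 3) h))
    push_cast [cast_kap]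
    rw [← this]
  · have := (kap4' a b c d (by exact_mod_cast congrArg (Int.cast : ℤ → ZMod 4) h))
    push_cast [cast_kap]
    rw [← this]

/-- `exp(2πi/12)` -/
noncomputable def ze : ℂ := Complex.exp (2 * Real.pi * Complex.I / 12)

lemma ze_ne : ze ≠ 0 := Complex.exp_ne_zero _

lemma ze_12 : ze ^ (12 : ℤ) = 1 := by
  unfold ze
  rw [show (12 : ℤ) = ((12 : ℕ) : ℤ) by norm_num, zpow_natCast, ← Complex.exp_nat_mul,
    Complex.exp_eq_one_iff]
  exact ⟨1, by push_cast; ring⟩

lemma ze_congr {m n : ℤ} (h : (12 : ℤ) ∣ m - n) : ze ^ m = ze ^ n := by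
  obtain ⟨t, ht⟩ := h
  have : m = n + 12 * t := by linarith
  rw [this, zpow_add₀ ze_ne, zpow_mul, ze_12, one_zpow, mul_one]

lemma ze_3 : ze ^ (3 : ℤ) = Complex.I := by
  unfold ze
  rw [show (3 : ℤ) = ((3 : ℕ) : ℤ) by norm_num, zpow_natCast, ← Complex.exp_nat_mul]
  have : ((3 : ℕ) : ℂ) * (2 * Real.pi * Complex.I / 12) = Real.pi / 2 * Complex.I := by
    push_cast; ring
  rw [this, Complex.exp_pi_div_two_mul_I]

/-- `η²` -/
noncomputable def G (w : ℂ) : ℂ := ModularForm.eta w ^ 2

lemma G_T (w : ℂ) : G (w + 1) = ze * G w := by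
  unfold G ModularForm.eta
  have h1 : ∀ n : ℕ, ModularForm.eta_q n (w + 1) = ModularForm.eta_q n w := by
    intro n
    rw [ModularForm.eta_q_eq_cexp, ModularForm.eta_q_eq_cexp]
    rw [Complex.exp_eq_exp_iff_exists_int]
    exact ⟨n + 1, by push_cast; ring⟩
  simp_rw [h1]
  have h2 : Function.Periodic.qParam 24 (w + 1) = Function.Periodic.qParam 24 w *
      Complex.exp (2 * Real.pi * Complex.I / 24) := by
    unfold Function.Periodic.qParam
    rw [← Complex.exp_add]
    congr 1
    push_cast
    ring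
  rw [h2, mul_pow, mul_pow, mul_pow]
  have h3 : Complex.exp (2 * Real.pi * Complex.I / 24) ^ 2 = ze := by
    unfold ze
    rw [← Complex.exp_nat_mul]
    congr 1
    push_cast
    ring
  rw [h3]
  ring

lemma G_Ti (w : ℂ) : G (w - 1) = ze⁻¹ * G w := by
  have h := G_T (w - 1)
  rw [sub_add_cancel] at h
  rw [h, inv_mul_cancel_left₀ ze_ne]

lemma G_S {w : ℂ} (hw : 0 < w.im) : G (-1 / w) = -Complex.I * w * G w := by
  unfold G
  have h1 := ModularForm.eta_comp_eq_csqrt_I_inv (show w ∈ upperHalfPlaneSet from hw)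
  simp only [Function.comp_apply, Pi.smul_apply, Pi.mul_apply, smul_eq_mul] at h1
  rw [h1, mul_pow, mul_pow]
  have hs : ∀ x : ℂ, Complex.sqrt x ^ 2 = x := by
    intro x
    unfold Complex.sqrt
    have := Complex.cpow_nat_inv_pow x (n := 2) two_ne_zero
    exact_mod_cast this
  rw [inv_pow, hs, hs, Complex.inv_I]
  ring

lemma im_moebius {a b c d : ℤ} (h : a * d - b * c = 1) {w : ℂ} (hw : 0 < w.im) :
    0 < ((a * w + b) / (c * w + d)).im ∧ (c : ℂ) * w + d ≠ 0 := by
  let z : ℍ := ⟨w, hw⟩
  have h2 : (((mkSL a b c d h) • z : ℍ) : ℂ) = (a * w + b) / (c * w + d) := by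
    rw [coe_specialLinearGroup_apply]
    have ez : (z : ℂ) = w := rfl
    rw [ez]
    simp only [algebraMap_int_eq, eq_intCast, Complex.ofReal_intCast]
    rfl
  constructor
  · rw [← h2]
    exact ((mkSL a b c d h) • z).im_pos
  · have h3 := denom_ne_zero (mkSL a b c d h : GL (Fin 2) ℝ) z
    have h4 : denom (mkSL a b c d h : GL (Fin 2) ℝ) z = c * w + d := by
      rw [ModularGroup.denom_apply]
      rfl
    rwa [h4] at h3

lemma mkSL_mul_S {a b c d : ℤ} (h : a * d - b * c = 1) (h' : b * (-c) - (-a) * d = 1) :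
    mkSL a b c d h * ModularGroup.S = mkSL b (-a) d (-c) h' := by
  apply Subtype.ext
  change !![a, b; c, d] * !![0, -1; 1, 0] = !![b, -a; d, -c]
  rw [Matrix.mul_fin_two]
  congr 1
  ext i j
  fin_cases i <;> fin_cases j <;> simp

lemma mkSL_mul_T {a b c d : ℤ} (h : a * d - b * c = 1) (h' : a * (c + d) - (a + b) * c = 1) :
    mkSL a b c d h * ModularGroup.T = mkSL a (a + b) c (c + d) h' := by
  apply Subtype.ext
  change !![a, b; c, d] * !![1, 1; 0, 1] = !![a, a + b; c, c + d]
  rw [Matrix.mul_fin_two]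
  congr 1
  ext i j
  fin_cases i <;> fin_cases j <;> simp

lemma mkSL_congr {a b c d a' b' c' d' : ℤ} (h : a * d - b * c = 1) (h' : a' * d' - b' * c' = 1)
    (ha : a = a') (hb : b = b') (hc : c = c') (hd : d = d') : mkSL a b c d h = mkSL a' b' c' d' h' := by
  subst ha hb hc hd
  rfl

theorem G_moebius {a b c d : ℤ} (h : a * d - b * c = 1) {w : ℂ} (hw : 0 < w.im) :
    G ((a * w + b) / (c * w + d)) = ze ^ (kap a b c d) * ((c : ℂ) * w + d) * G w := by
  have key : ∀ γ : SL(2, ℤ), ∀ (a b c d : ℤ) (h : a * d - b * c = 1), γ = mkSL a b c d h →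
      ∀ w : ℂ, 0 < w.im →
      G ((a * w + b) / (c * w + d)) = ze ^ (kap a b c d) * ((c : ℂ) * w + d) * G w := by
    intro γ
    have hγ : γ ∈ Subgroup.closure ({ModularGroup.S, ModularGroup.T} : Set SL(2, ℤ)) := by
      rw [SpecialLinearGroup.SL2Z_generators]; trivial
    induction hγ using Subgroup.closure_induction_right with
    | one =>
      intro a b c d h e w hw
      have h00 := congrArg (fun g : SL(2, ℤ) => g 0 0) e
      have h01 := congrArg (fun g : SL(2, ℤ) => g 0 1) e
      have h10 := congrArg (fun g : SL(2, ℤ) => g 1 0) e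
      have h11 := congrArg (fun g : SL(2, ℤ) => g 1 1) e
      simp [mkSL] at h00 h01 h10 h11
      subst h00 h01 h10 h11
      simp [kap]
    | mul_right x hx y hy ih =>
      intro a b c d h e w hw
      rcases hy with rfl | rfl
      · -- S
        have hx : x = mkSL (-b) a (-d) c (by linarith) := by
          apply mul_right_cancel (b := ModularGroup.S)
          rw [e, mkSL_mul_S (by linarith) (by linarith)]
          exact mkSL_congr _ _ rfl (by ring) rfl (by ring)
        have hw' : 0 < (-1 / w).im := by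
          have := (im_moebius (a := 0) (b := -1) (c := 1) (d := 0) (by norm_num) hw).1
          simpa using this
        have hwC : w ≠ 0 := fun h => by simp [h] at hw
        have h1 := ih (-b) a (-d) c (by linarith) hx (-1 / w) hw'
        rw [G_S hw, ze_congr (kap_Si h), zpow_add₀ ze_ne, ze_3] at h1
        have h2 : (((-b : ℤ) : ℂ) * (-1 / w) + a) / (((-d : ℤ) : ℂ) * (-1 / w) + c) =
            (a * w + b) / (c * w + d) := by
          have e1 : ((-b : ℤ) : ℂ) * (-1 / w) + a = (a * w + b) / w := by
            push_cast; field_simp; ring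
          have e2 : ((-d : ℤ) : ℂ) * (-1 / w) + c = (c * w + d) / w := by
            push_cast; field_simp; ring
          rw [e1, e2, div_div_div_cancel_right₀ hwC]
        rw [h2] at h1
        rw [h1]
        have e3 : (((-d : ℤ) : ℂ) * (-1 / w) + c) * w = c * w + d := by
          push_cast; field_simp; ring
        have hI : Complex.I ^ 2 = -1 := Complex.I_sq
        linear_combination (ze ^ kap a b c d * (-Complex.I ^ 2) * G w) * e3 -
          (ze ^ kap a b c d * (c * w + d) * G w) * hI
      · -- T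
        have hx : x = mkSL a (b - a) c (d - c) (by linarith) := by
          apply mul_right_cancel (b := ModularGroup.T)
          rw [e, mkSL_mul_T (by linarith) (by linarith)]
          exact mkSL_congr _ _ rfl (by ring) rfl (by ring)
        have hw' : 0 < (w + 1).im := by simpa using hw
        have h1 := ih a (b - a) c (d - c) (by linarith) hx (w + 1) hw'
        rw [G_T, ze_congr (kap_Ti h), zpow_sub_one₀ ze_ne] at h1
        have h2 : ((a : ℂ) * (w + 1) + ((b - a : ℤ) : ℂ)) / ((c : ℂ) * (w + 1) + ((d - c : ℤ) : ℂ)) =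
            (a * w + b) / (c * w + d) := by
          push_cast
          rw [show (a : ℂ) * (w + 1) + (b - a) = a * w + b by ring,
            show (c : ℂ) * (w + 1) + (d - c) = c * w + d by ring]
        rw [h2] at h1
        rw [h1]
        have hz := ze_ne
        push_cast
        field_simp
        ring
    | mul_inv_cancel x hx y hy ih =>
      intro a b c d h e w hw
      rcases hy with rfl | rfl
      · -- S
        have hx : x = mkSL b (-a) d (-c) (by linarith) := by
          have : x = mkSL a b c d h * ModularGroup.S := by rw [← e, inv_mul_cancel_right]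
          rw [this, mkSL_mul_S h (by linarith)]
        have hw' : 0 < (-1 / w).im := by
          have := (im_moebius (a := 0) (b := -1) (c := 1) (d := 0) (by norm_num) hw).1
          simpa using this
        have hwC : w ≠ 0 := fun h => by simp [h] at hw
        have h1 := ih b (-a) d (-c) (by linarith) hx (-1 / w) hw'
        rw [G_S hw, ze_congr (kap_S h), zpow_sub₀ ze_ne, ze_3] at h1
        have h2 : (((b : ℤ) : ℂ) * (-1 / w) + ((-a : ℤ) : ℂ)) / (((d : ℤ) : ℂ) * (-1 / w) + ((-c : ℤ) : ℂ)) =
            (a * w + b) / (c * w + d) := by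
          have e1 : ((b : ℤ) : ℂ) * (-1 / w) + ((-a : ℤ) : ℂ) = -((a * w + b) / w) := by
            push_cast; field_simp; ring
          have e2 : ((d : ℤ) : ℂ) * (-1 / w) + ((-c : ℤ) : ℂ) = -((c * w + d) / w) := by
            push_cast; field_simp; ring
          rw [e1, e2, neg_div_neg_eq, div_div_div_cancel_right₀ hwC]
        rw [h2] at h1
        rw [h1]
        push_cast
        field_simp
        ring
      · -- T
        have hx : x = mkSL a (a + b) c (c + d) (by linarith) := by
          have : x = mkSL a b c d h * ModularGroup.T := by rw [← e, inv_mul_cancel_right]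
          rw [this, mkSL_mul_T h (by linarith)]
        have hw' : 0 < (w - 1).im := by simpa using hw
        have h1 := ih a (a + b) c (c + d) (by linarith) hx (w - 1) hw'
        rw [G_Ti, ze_congr (kap_T h), zpow_add_one₀ ze_ne] at h1
        have h2 : ((a : ℂ) * (w - 1) + ((a + b : ℤ) : ℂ)) / ((c : ℂ) * (w - 1) + ((c + d : ℤ) : ℂ)) =
            (a * w + b) / (c * w + d) := by
          push_cast
          rw [show (a : ℂ) * (w - 1) + (a + b) = a * w + b by ring,
            show (c : ℂ) * (w - 1) + (c + d) = c * w + d by ring]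
        rw [h2] at h1
        rw [h1]
        have hz := ze_ne
        push_cast
        field_simp
        ring
  exact key _ a b c d h rfl w hw

end Pool.Agent.W97.TW
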