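import Pool.Agent.W97.TW.Hecke

/-!
The central values of the twists.
-/

set_option autoImplicit false

open UpperHalfPlane MatrixGroups CongruenceSubgroup Filter Topology

namespace Pool.Agent.W97.TW

variable {N : ℕ} {k : ℤ} {f : CuspForm (Gamma0 N : Subgroup (GL (Fin 2) ℝ)) k}

lemma lam_eq (n : ℕ) : lam N k f n = A f n * (n : ℂ) ^ (-(((k : ℂ) - 1) / 2)) := rfl

lemma lam_zero [NeZero N] : lam N k f 0 = 0 := by rw [lam_eq, A_zero, zero_mul]

lemma A_one (hf : IsNewform N k f) : A f 1 = 1 := hf.coeff_one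

lemma lam_one (hf : IsNewform N k f) : lam N k f 1 = 1 := by
  rw [lam_eq, A_one hf]; simp

lemma A_rec [NeZero N] (hf : IsNewform N k f) (p : Nat.Primes) (m : ℕ) :
    A f (p * m) = A f p * A f m -
      (if (p : ℕ) ∣ N then 0 else ((p : ℕ) : ℂ) ^ (k - 1)) *
        (if (p : ℕ) ∣ m then A f (m / p) else 0) := by
  obtain ⟨a, ha⟩ := hf.hecke p
  have h1 := hecke_rec f p.2.pos ha m
  have h2 := hecke_rec f p.2.pos ha 1
  unfold B at h1 h2
  rw [A_one hf, mul_one, mul_one, if_neg (c := (p : ℕ) ∣ 1)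
    (fun h => p.2.one_lt.ne' (Nat.dvd_one.1 h)), mul_zero, zero_add] at h2
  rw [h2]
  linear_combination h1

lemma lam_rec [NeZero N] (hf : IsNewform N k f) (p : Nat.Primes) (m : ℕ) :
    lam N k f (p * m) = lam N k f p * lam N k f m -
      (if (p : ℕ) ∣ N then 0 else 1) * (if (p : ℕ) ∣ m then lam N k f (m / p) else 0) := by
  have hpC : ((p : ℕ) : ℂ) ≠ 0 := by exact_mod_cast p.2.pos.ne'
  set κ : ℂ := ((k : ℂ) - 1) / 2 with hκ
  rw [lam_eq, lam_eq, lam_eq, lam_eq, A_rec hf p m, Nat.cast_mul,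
    Complex.natCast_mul_natCast_cpow, ← hκ]
  by_cases hd : (p : ℕ) ∣ m
  · obtain ⟨n, rfl⟩ := hd
    rw [if_pos (dvd_mul_right _ _), if_pos (dvd_mul_right _ _), Nat.mul_div_cancel_left _ p.2.pos,
      Nat.cast_mul, Complex.natCast_mul_natCast_cpow]
    have h1 : ((p : ℕ) : ℂ) ^ (k - 1) = ((p : ℕ) : ℂ) ^ κ * ((p : ℕ) : ℂ) ^ κ := by
      rw [← Complex.cpow_add _ _ hpC, ← Complex.cpow_intCast]
      congr 1
      rw [hκ]
      push_cast
      ring
    have h2 : ((p : ℕ) : ℂ) ^ κ * ((p : ℕ) : ℂ) ^ (-κ) = 1 := by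
      rw [← Complex.cpow_add _ _ hpC, add_neg_cancel, Complex.cpow_zero]
    split_ifs
    · ring
    · rw [h1]
      generalize ((p : ℕ) : ℂ) ^ κ = X at h2 ⊢
      generalize ((p : ℕ) : ℂ) ^ (-κ) = Y at h2 ⊢
      linear_combination (-(A f n * (n : ℂ) ^ (-κ)) * (X * Y + 1)) * h2
  · rw [if_neg hd, if_neg hd]
    ring

lemma lam_bound [NeZero N] : ∃ C : ℝ, ∀ n : ℕ, ‖lam N k f n‖ ≤ C * Real.sqrt n := by
  obtain ⟨C, hC⟩ := A_bound f
  refine ⟨C, fun n => ?_⟩
  rcases Nat.eq_zero_or_pos n with rfl | hn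
  · rw [lam_zero]; simp
  · have hn0 : (0 : ℝ) < n := by exact_mod_cast hn
    rw [lam_eq, norm_mul]
    have h3 : ‖(n : ℂ) ^ (-(((k : ℂ) - 1) / 2))‖ = (n : ℝ) ^ (-(((k : ℝ) - 1) / 2)) := by
      rw [← Complex.ofReal_natCast, Complex.norm_cpow_eq_rpow_re_of_pos hn0]
      congr 1
      have : (-(((k : ℂ) - 1) / 2)) = ((-(((k : ℝ) - 1) / 2) : ℝ) : ℂ) := by push_cast; ring
      rw [this, Complex.ofReal_re]
    rw [h3]
    calc ‖A f n‖ * (n : ℝ) ^ (-(((k : ℝ) - 1) / 2))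
        ≤ (C * (n : ℝ) ^ ((k : ℝ) / 2)) * (n : ℝ) ^ (-(((k : ℝ) - 1) / 2)) := by
          gcongr
          exact hC n hn
      _ = C * Real.sqrt n := by
        rw [mul_assoc, ← Real.rpow_add hn0, Real.sqrt_eq_rpow]
        congr 2
        ring

lemma not_const [NeZero N] (hf : IsNewform N k f) (c : ℂ) : ¬ ∀ z : ℍ, f z = c := by
  intro h
  have h1 := ModularFormClass.qExpansion_coeff_unique (Γ := (Gamma0 N : Subgroup (GL (Fin 2) ℝ)))
    (k := k) (c := fun n : ℕ => if n = 0 then c else 0) one_pos one_mem0 (f := f) (fun τ => by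
      rw [h τ]
      have := hasSum_ite_eq (0 : ℕ) c
      refine this.congr_fun fun n => ?_
      by_cases hn : n = 0
      · simp [hn]
      · simp [hn]) 1
  have h2 := hf.coeff_one
  rw [← h1] at h2
  simp at h2

lemma k_pos [NeZero N] (hf : IsNewform N k f) : 0 < k := by
  by_contra hk
  rcases (not_lt.1 hk).lt_or_eq with h | rfl
  · have h1 := ModularForm.isZero_of_neg_weight h (CuspForm.toModularFormₗ f)
    apply not_const hf 0
    intro z
    have := congrArg (fun g : ModularForm (Gamma0 N : Subgroup (GL (Fin 2) ℝ)) k => g z) h1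
    simpa using this
  · obtain ⟨c, hc⟩ := ModularForm.eq_const_of_weight_zero (CuspForm.toModularFormₗ f)
    apply not_const hf c
    intro z
    have := congrFun hc z
    simpa using this

lemma fricke_ne_zero [NeZero N] (hf : IsNewform N k f) {W : ℂ}
    (hW : ∀ z : ℍ, f (ofComplex (-1 / ((N : ℂ) * z))) = W * (z : ℂ) ^ k * f z) : W ≠ 0 := by
  rintro rfl
  apply not_const hf 0
  intro z
  have hNC : (N : ℂ) ≠ 0 := by exact_mod_cast (NeZero.ne N)
  have hzC : (z : ℂ) ≠ 0 := z.ne_zero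
  have him : 0 < (-1 / ((N : ℂ) * z)).im := by
    rw [neg_div, Complex.neg_im, one_div, Complex.inv_im, neg_div, neg_neg]
    have h1 : 0 < ((N : ℂ) * z).im := by
      rw [Complex.mul_im]
      simp only [Complex.natCast_re, Complex.natCast_im, zero_mul, add_zero]
      have : (0 : ℝ) < N := by exact_mod_cast NeZero.pos N
      exact mul_pos this z.im_pos
    exact div_pos h1 (Complex.normSq_pos.2 (ne_zero_of_im h1))
  have h1 := hW ⟨_, him⟩
  have h2 : ((⟨-1 / ((N : ℂ) * z), him⟩ : ℍ) : ℂ) = -1 / ((N : ℂ) * z) := rfl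
  rw [h2] at h1
  have h3 : -1 / ((N : ℂ) * (-1 / ((N : ℂ) * z))) = z := by field_simp
  rw [h3, ofComplex_apply] at h1
  rw [h1]
  ring

theorem twist_L [NeZero N] (hf : IsNewform N k f) {m : ℕ} [NeZero m] (ψ : DirichletCharacter ℂ m)
    (hψ : ψ.IsPrimitive) (hsq : ψ ^ 2 = 1) (q : ℝ) (hq : 0 < q) (ε : ℂ) (hε : ε ≠ 0)
    (hfe : ∀ t : ℝ, 0 < t → TS f ψ (Complex.I * (((1 / t) / q : ℝ) : ℂ)) =
      ε * (t : ℂ) ^ k * TS f ψ (Complex.I * ((t / q : ℝ) : ℂ))) :
    ∃ L : ℂ → ℂ, IsTwistedLFunction N k f ψ L ∧ (ε ≠ 1 → L (1 / 2) = 0) := by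
  have hk := k_pos hf
  have hkR : (0 : ℝ) < k := by exact_mod_cast hk
  have htau := tau_ne_zero ψ hψ
  obtain ⟨C, hC⟩ := A_bound f
  obtain ⟨C', hC'⟩ := lam_bound (f := f)
  set c : ℕ → ℂ := fun n => A f n * ψ n with hc
  have hc0 : c 0 = 0 := by simp [hc, A_zero]
  have hcb : ∀ n : ℕ, 1 ≤ n → ‖c n‖ ≤ C * (n : ℝ) ^ ((k : ℝ) / 2) := by
    intro n hn
    simp only [hc]
    rw [norm_mul]
    have h1 := hC n hn
    have h2 : ‖ψ n‖ ≤ 1 := DirichletCharacter.norm_le_one ψ _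
    have h3 := norm_nonneg (A f n)
    calc ‖A f n‖ * ‖ψ n‖ ≤ ‖A f n‖ * 1 := by gcongr
      _ ≤ _ := by rw [mul_one]; exact h1
  obtain ⟨H, hH, hHfe, hHd⟩ := core (c := c) (C := C) (β := (k : ℝ) / 2) (q := q)
    (Φ := fun t => (tau ψ)⁻¹ * TS f ψ (Complex.I * ((t / q : ℝ) : ℂ))) hc0 hcb hq (by
      intro t ht
      have h1 := (hasSum_TS f ψ hψ hsq (y := t / q) (by positivity)).mul_left (tau ψ)⁻¹
      refine h1.congr_fun fun n => ?_
      simp only [hc]
      rw [inv_mul_cancel_left₀ htau]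
      have he : -(2 * Real.pi * n / q) * t = -(2 * Real.pi * n) * (t / q) := by ring
      rw [he]) (continuousOn_const.mul (continuousOn_TS f ψ q hq)) k hkR ε hε (by
      intro t ht
      rw [hfe t ht]
      have : ((t ^ (k : ℝ) : ℝ) : ℂ) = (t : ℂ) ^ k := by
        rw [Real.rpow_intCast]
        push_cast
        rfl
      rw [this]
      ring)
  have hq2 : (((q / (2 * Real.pi) : ℝ)) : ℂ) ≠ 0 := by
    have : (q / (2 * Real.pi) : ℝ) ≠ 0 := by positivity
    exact_mod_cast this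
  set κ : ℂ := ((k : ℂ) - 1) / 2 with hκ
  let L : ℂ → ℂ := fun s => H (s + κ) * (((q / (2 * Real.pi) : ℝ)) : ℂ) ^ (-(s + κ)) *
    (Complex.Gamma (s + κ))⁻¹
  have hL : Differentiable ℂ L := by
    have h1 : Differentiable ℂ (fun s : ℂ => H (s + κ)) := hH.comp (by fun_prop)
    have h2 : Differentiable ℂ (fun s : ℂ => (((q / (2 * Real.pi) : ℝ)) : ℂ) ^ (-(s + κ))) := by
      intro s
      exact DifferentiableAt.const_cpow (by fun_prop) (Or.inl hq2)
    have h4 : Differentiable ℂ (fun s : ℂ => (Complex.Gamma (s + κ))⁻¹) :=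
      Complex.differentiable_one_div_Gamma.comp (by fun_prop)
    exact (h1.mul h2).mul h4
  have hLd : ∀ s : ℂ, 3 / 2 < s.re → L s = ∑' n : ℕ, lam N k f n * ψ n * (n : ℂ) ^ (-s) := by
    intro s hs
    have hre : (s + κ).re = s.re + ((k : ℝ) - 1) / 2 := by
      have : κ = ((((k : ℝ) - 1) / 2 : ℝ) : ℂ) := by rw [hκ]; push_cast; ring
      rw [this, Complex.add_re, Complex.ofReal_re]
    have hpos : 0 < (s + κ).re := by rw [hre]; linarith
    have h1 := hHd (s + κ) hpos (by rw [hre]; linarith)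
    simp only [L]
    rw [h1]
    have hG : Complex.Gamma (s + κ) ≠ 0 := Complex.Gamma_ne_zero_of_re_pos hpos
    have hP : (((q / (2 * Real.pi) : ℝ)) : ℂ) ^ (s + κ) ≠ 0 := by
      rw [Complex.cpow_def_of_ne_zero hq2]; exact Complex.exp_ne_zero _
    rw [Complex.cpow_neg]
    have h2 : ∑' n : ℕ, c n * (n : ℂ) ^ (-(s + κ)) = ∑' n : ℕ, lam N k f n * ψ n * (n : ℂ) ^ (-s) := by
      refine tsum_congr fun n => ?_
      rcases Nat.eq_zero_or_pos n with rfl | hn
      · rw [hc0, lam_zero]; ring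
      · have hnC : (n : ℂ) ≠ 0 := by exact_mod_cast hn.ne'
        simp only [hc]
        rw [lam_eq, neg_add, Complex.cpow_add _ _ hnC, ← hκ]
        ring
    rw [h2]
    generalize (((q / (2 * Real.pi) : ℝ)) : ℂ) ^ (s + κ) = X at hP ⊢
    field_simp
  refine ⟨L, ⟨hL, fun s hs => ?_⟩, fun hne => ?_⟩
  · rw [hLd s hs]
    have h1 := (euler_product (fun p : Nat.Primes => lam N k f p)
      (fun p : Nat.Primes => if (p : ℕ) ∣ N then 0 else 1) (lam N k f) lam_zero (lam_one hf)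
      (fun p m _ => lam_rec hf p m) C' hC' ψ s hs).2
    exact h1
  · have h1 := hHfe (k / 2)
    have h2 : (k : ℂ) - k / 2 = k / 2 := by ring
    have h3 : (((k : ℝ) : ℂ)) = (k : ℂ) := by push_cast; rfl
    rw [h3, h2] at h1
    have h4 : H (k / 2) = 0 := by
      have : (ε - 1) * H (k / 2) = 0 := by linear_combination -h1
      rcases mul_eq_zero.1 this with h | h
      · exact absurd (sub_eq_zero.1 h) hne
      · exact h
    simp only [L]
    have h5 : (1 / 2 : ℂ) + κ = k / 2 := by rw [hκ]; ring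
    rw [h5, h4]
    ring

lemma twisted_unique {m : ℕ} {ψ : DirichletCharacter ℂ m} {L L' : ℂ → ℂ}
    (h : IsTwistedLFunction N k f ψ L) (h' : IsTwistedLFunction N k f ψ L') : L = L' := by
  have h1 : AnalyticOnNhd ℂ L Set.univ := fun s _ => h.1.analyticAt s
  have h2 : AnalyticOnNhd ℂ L' Set.univ := fun s _ => h'.1.analyticAt s
  refine h1.eq_of_eventuallyEq h2 (z₀ := 2) ?_
  have hopen : IsOpen {s : ℂ | 3 / 2 < s.re} := isOpen_lt continuous_const Complex.continuous_re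
  filter_upwards [hopen.mem_nhds (by change (3 / 2 : ℝ) < (2 : ℂ).re; norm_num)] with s hs
  exact (h.2 s hs).unique (h'.2 s hs)

/-- the sign of the functional equation in the case of a conductor prime to the level -/
noncomputable def eta (N : ℕ) (k : ℤ) (W : ℂ) : ℂ := W * (Complex.I / (Real.sqrt N : ℂ)) ^ k

lemma eta_ne_zero [NeZero N] {W : ℂ} (hW : W ≠ 0) : eta N k W ≠ 0 := by
  have : (0 : ℝ) < N := by exact_mod_cast NeZero.pos N
  have h1 : (Real.sqrt N : ℂ) ≠ 0 := by exact_mod_cast (Real.sqrt_pos.2 this).ne'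
  exact mul_ne_zero hW (zpow_ne_zero _ (div_ne_zero Complex.I_ne_zero h1))

theorem twist_one [NeZero N] (hf : IsNewform N k f) {W : ℂ}
    (hW : ∀ z : ℍ, f (ofComplex (-1 / ((N : ℂ) * z))) = W * (z : ℂ) ^ k * f z)
    {m : ℕ} [NeZero m] (hNm : Nat.Coprime N m) (ψ : DirichletCharacter ℂ m)
    (hψ : ψ.IsPrimitive) (hsq : ψ ^ 2 = 1) :
    ∃ L : ℂ → ℂ, IsTwistedLFunction N k f ψ L ∧
      (ψ (-((N : ZMod m))) * eta N k W ≠ 1 → L (1 / 2) = 0) := by
  have hNR : (0 : ℝ) < N := by exact_mod_cast NeZero.pos N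
  have hmR : (0 : ℝ) < m := by exact_mod_cast NeZero.pos m
  have hs := Real.sqrt_pos.2 hNR
  have hsC : (Real.sqrt N : ℂ) ≠ 0 := by exact_mod_cast hs.ne'
  have hmC : (m : ℂ) ≠ 0 := by exact_mod_cast hmR.ne'
  have hsq2 : (Real.sqrt N : ℂ) ^ 2 = N := by
    have : Real.sqrt N ^ 2 = N := Real.sq_sqrt hNR.le
    exact_mod_cast this
  have hψN : ψ (-((N : ZMod m))) ≠ 0 := by
    have h1 : IsUnit (-((N : ZMod m))) := ((ZMod.isUnit_iff_coprime _ _).2 hNm).neg
    exact (h1.map ψ).ne_zero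
  refine twist_L hf ψ hψ hsq (m * Real.sqrt N) (by positivity)
    (ψ (-((N : ZMod m))) * eta N k W) (mul_ne_zero hψN (eta_ne_zero (fricke_ne_zero hf hW))) ?_
  intro t ht
  have htC : (t : ℂ) ≠ 0 := by exact_mod_cast ht.ne'
  have him : 0 < (Complex.I * ((t / (m * Real.sqrt N) : ℝ) : ℂ)).im := by
    rw [Complex.I_mul_im, Complex.ofReal_re]
    positivity
  have h1 := TS_one f hW (NeZero.pos N) hNm ψ hsq him
  have h2 : -1 / ((N : ℂ) * (m : ℂ) ^ 2 * (Complex.I * ((t / (m * Real.sqrt N) : ℝ) : ℂ))) =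
      Complex.I * (((1 / t) / (m * Real.sqrt N) : ℝ) : ℂ) := by
    push_cast
    rw [← hsq2]
    have hI : Complex.I ^ 2 = -1 := Complex.I_sq
    field_simp
    linear_combination -hI
  rw [h2] at h1
  rw [h1]
  have h3 : (m : ℂ) * (Complex.I * ((t / (m * Real.sqrt N) : ℝ) : ℂ)) =
      (Complex.I / (Real.sqrt N : ℂ)) * t := by
    push_cast
    field_simp
  rw [h3, mul_zpow]
  unfold eta
  ring

theorem twist_two [NeZero N] (hf : IsNewform N k f) {m : ℕ} [NeZero m] (hNm : N ∣ m)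
    (ψ : DirichletCharacter ℂ m) (hψ : ψ.IsPrimitive) (hsq : ψ ^ 2 = 1) :
    ∃ L : ℂ → ℂ, IsTwistedLFunction N k f ψ L ∧
      (ψ (-1) * Complex.I ^ k ≠ 1 → L (1 / 2) = 0) := by
  have hmR : (0 : ℝ) < m := by exact_mod_cast NeZero.pos m
  have hmC : (m : ℂ) ≠ 0 := by exact_mod_cast hmR.ne'
  have hψN : ψ (-1) ≠ 0 := by
    have h1 : IsUnit (-1 : ZMod m) := isUnit_one.neg
    exact (h1.map ψ).ne_zero
  refine twist_L hf ψ hψ hsq m hmR
    (ψ (-1) * Complex.I ^ k) (mul_ne_zero hψN (zpow_ne_zero _ Complex.I_ne_zero)) ?_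
  intro t ht
  have htC : (t : ℂ) ≠ 0 := by exact_mod_cast ht.ne'
  have him : 0 < (Complex.I * ((t / m : ℝ) : ℂ)).im := by
    rw [Complex.I_mul_im, Complex.ofReal_re]
    positivity
  have h1 := TS_two f hNm ψ hsq him
  have h2 : -1 / ((m : ℂ) ^ 2 * (Complex.I * ((t / m : ℝ) : ℂ))) =
      Complex.I * (((1 / t) / m : ℝ) : ℂ) := by
    push_cast
    have hI : Complex.I ^ 2 = -1 := Complex.I_sq
    field_simp
    linear_combination -hI
  rw [h2] at h1
  rw [h1]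
  have h3 : (m : ℂ) * (Complex.I * ((t / m : ℝ) : ℂ)) = Complex.I * t := by
    push_cast
    field_simp
  rw [h3, mul_zpow]
  ring

end Pool.Agent.W97.TW
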