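import Pool.Agent.W97.TW.Main
import Pool.Agent.W97.TW.Char

/-!
For a newform of level `1` or prime level and an odd quadratic character `χ` that is split at the level,
one of `L(f ⊗ ψ, 1/2)`, `L(f ⊗ χψ, 1/2)` vanishes, for every primitive real character `ψ`.
-/

set_option autoImplicit false

open UpperHalfPlane MatrixGroups CongruenceSubgroup DirichletCharacter

namespace Pool.Agent.W97.TW

variable {N : ℕ} {k : ℤ} {f : CuspForm (Gamma0 N : Subgroup (GL (Fin 2) ℝ)) k}

theorem vanish [NeZero N] (hN : N = 1 ∨ N.Prime) (hf : IsNewform N k f) {q m : ℕ} [NeZero q]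
    [NeZero m] (χ : DirichletCharacter ℂ q) (hχ : χ.IsPrimitive) (hχ2 : χ ^ 2 = 1)
    (hodd : χ (-1) = -1) (hχN : χ N = 1) (ψ : DirichletCharacter ℂ m) (hψ : ψ.IsPrimitive)
    (hψ2 : ψ ^ 2 = 1) :
    ∃ L₁ L₂ : ℂ → ℂ, IsTwistedLFunction N k f ψ L₁ ∧
      IsTwistedLFunction N k f (primitive_mul χ ψ) L₂ ∧ L₁ (1 / 2) * L₂ (1 / 2) = 0 := by
  obtain ⟨W, hW⟩ := hf.fricke
  have hNq : Nat.Coprime N q := by
    rw [← ZMod.isUnit_iff_coprime]
    by_contra h
    rw [MulChar.map_nonunit χ h] at hχN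
    exact zero_ne_one hχN
  have hρ := primitive_mul_isPrimitive (χ := χ) ψ
  have hρ2 := prod_sq χ ψ hχ2 hψ2
  by_cases hNm : Nat.Coprime N m
  · obtain ⟨L₁, h1, h1'⟩ := twist_one hf hW hNm ψ hψ hψ2
    obtain ⟨L₂, h2, h2'⟩ := twist_one hf hW (coprime_conductor χ ψ hNq hNm) (primitive_mul χ ψ)
      hρ hρ2
    refine ⟨L₁, L₂, h1, h2, ?_⟩
    have hval : primitive_mul χ ψ (-((N : ZMod (mul χ ψ).conductor))) = -ψ (-((N : ZMod m))) := by
      have e1 := prod_apply χ ψ (a := -(N : ℤ))
        (by rw [IsCoprime.neg_left_iff]; exact Nat.isCoprime_iff_coprime.2 hNq)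
        (by rw [IsCoprime.neg_left_iff]; exact Nat.isCoprime_iff_coprime.2 hNm)
      push_cast at e1
      rw [e1]
      have e2 : χ (-((N : ZMod q))) = -1 := by
        rw [neg_eq_neg_one_mul, map_mul, hodd, hχN, mul_one]
      rw [e2]
      ring
    by_cases hs : ψ (-((N : ZMod m))) * eta N k W = 1
    · rw [h2', mul_zero]
      rw [hval]
      intro h3
      have : (1 : ℂ) = -1 := by linear_combination -hs - h3
      norm_num at this
    · rw [h1' hs, zero_mul]
  · have hNp : N.Prime := by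
      rcases hN with rfl | h
      · exact absurd (Nat.coprime_one_left m) hNm
      · exact h
    have hdm : N ∣ m := by
      by_contra h
      exact hNm ((Nat.Prime.coprime_iff_not_dvd hNp).2 h)
    have hdq : ¬ N ∣ q := (Nat.Prime.coprime_iff_not_dvd hNp).1 hNq
    obtain ⟨L₁, h1, h1'⟩ := twist_two hf hdm ψ hψ hψ2
    obtain ⟨L₂, h2, h2'⟩ := twist_two hf (dvd_conductor χ ψ hNp hdq hdm hχ hψ) (primitive_mul χ ψ)
      hρ hρ2
    refine ⟨L₁, L₂, h1, h2, ?_⟩
    have hval : primitive_mul χ ψ (-1) = -ψ (-1) := by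
      have e1 := prod_apply χ ψ (a := -1)
        (by rw [IsCoprime.neg_left_iff]; exact isCoprime_one_left)
        (by rw [IsCoprime.neg_left_iff]; exact isCoprime_one_left)
      push_cast at e1
      rw [e1, hodd]
      ring
    by_cases hs : ψ (-1) * Complex.I ^ k = 1
    · rw [h2', mul_zero]
      rw [hval]
      intro h3
      have : (1 : ℂ) = -1 := by linear_combination -hs - h3
      norm_num at this
    · rw [h1' hs, zero_mul]

end Pool.Agent.W97.TW
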